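import Mathlib
import Pool.Agent.H95.VG.Targets1

/-!
# VG: basic lemmas on integrals over `Oa` (helper42)
-/

open MeasureTheory Set Filter Topology
open scoped ENNReal NNReal ContDiff ComplexConjugate

namespace Pool.Agent.H42.VG

open Pool.Agent.H95.VG

variable {n : ℕ}

lemma norm_I_smul (v : V n) : ‖Complex.I • v‖ = ‖v‖ := by
  rw [norm_smul]; simp

/-! ### second derivatives -/

lemma fderiv_apply_const {F : Type*} [NormedAddCommGroup F] [NormedSpace ℝ F] {g : V n → F}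
    {z : V n} (hg : ContDiffAt ℝ 2 g z) (v u : V n) :
    fderiv ℝ (fun x => fderiv ℝ g x v) z u = fderiv ℝ (fderiv ℝ g) z u v := by
  have h1 : DifferentiableAt ℝ (fderiv ℝ g) z :=
    (hg.fderiv_right (m := 1) (by norm_num)).differentiableAt (by norm_num)
  have h2 : HasFDerivAt (fun x => fderiv ℝ g x v)
      ((ContinuousLinearMap.apply ℝ F v).comp (fderiv ℝ (fderiv ℝ g) z)) z :=
    (ContinuousLinearMap.apply ℝ F v).hasFDerivAt.comp z h1.hasFDerivAt
  rw [h2.fderiv]; rfl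

lemma lev_eq {F : Type*} [NormedAddCommGroup F] [NormedSpace ℝ F] {g : V n → F}
    {z : V n} (hg : ContDiffAt ℝ 2 g z) (v : V n) :
    lev g z v = (4 : ℝ)⁻¹ • (fderiv ℝ (fderiv ℝ g) z v v +
      fderiv ℝ (fderiv ℝ g) z (Complex.I • v) (Complex.I • v)) := by
  unfold lev
  rw [fderiv_apply_const hg, fderiv_apply_const hg]

lemma abs_lev_le {g : V n → ℝ} {z : V n} (hg : ContDiffAt ℝ 2 g z) (v : V n) :
    |lev g z v| ≤ ‖fderiv ℝ (fderiv ℝ g) z‖ * ‖v‖ ^ 2 := by
  rw [lev_eq hg]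
  have h1 : ‖fderiv ℝ (fderiv ℝ g) z v v‖ ≤ ‖fderiv ℝ (fderiv ℝ g) z‖ * ‖v‖ * ‖v‖ :=
    ContinuousLinearMap.le_opNorm₂ _ _ _
  have h2 : ‖fderiv ℝ (fderiv ℝ g) z (Complex.I • v) (Complex.I • v)‖
      ≤ ‖fderiv ℝ (fderiv ℝ g) z‖ * ‖Complex.I • v‖ * ‖Complex.I • v‖ :=
    ContinuousLinearMap.le_opNorm₂ _ _ _
  rw [norm_I_smul] at h2
  rw [Real.norm_eq_abs] at h1 h2
  rw [smul_eq_mul, abs_mul, abs_of_nonneg (by norm_num : (0:ℝ) ≤ 4⁻¹)]
  have h3 := abs_add_le (fderiv ℝ (fderiv ℝ g) z v v)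
    (fderiv ℝ (fderiv ℝ g) z (Complex.I • v) (Complex.I • v))
  have h4 : 0 ≤ ‖fderiv ℝ (fderiv ℝ g) z‖ * ‖v‖ * ‖v‖ := by positivity
  nlinarith

lemma norm_dr_le (g : V n → ℝ) (z v : V n) : ‖dr g z v‖ ≤ ‖fderiv ℝ g z‖ * ‖v‖ := by
  unfold dr
  have h1 : ‖fderiv ℝ g z v‖ ≤ ‖fderiv ℝ g z‖ * ‖v‖ := ContinuousLinearMap.le_opNorm _ _
  have h2 : ‖fderiv ℝ g z (Complex.I • v)‖ ≤ ‖fderiv ℝ g z‖ * ‖Complex.I • v‖ :=
    ContinuousLinearMap.le_opNorm _ _
  rw [norm_I_smul] at h2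
  rw [norm_div]
  have h3 := norm_sub_le ((fderiv ℝ g z v : ℝ) : ℂ)
    (Complex.I * ((fderiv ℝ g z (Complex.I • v) : ℝ) : ℂ))
  rw [norm_mul, Complex.norm_I, one_mul, Complex.norm_real, Complex.norm_real] at h3
  rw [Complex.norm_ofNat]
  linarith

lemma contOn_fderiv2 {O : Set (V n)} (hO : IsOpen O) {g : V n → ℝ} (hg : ContDiffOn ℝ 2 g O) :
    ContinuousOn (fderiv ℝ (fderiv ℝ g)) O := by
  have h1 : ContDiffOn ℝ 1 (fderiv ℝ g) O := hg.fderiv_of_isOpen hO (by norm_num)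
  exact h1.continuousOn_fderiv_of_isOpen hO (by norm_num)

lemma contOn_fderiv1 {O : Set (V n)} (hO : IsOpen O) {g : V n → ℝ} (hg : ContDiffOn ℝ 1 g O) :
    ContinuousOn (fderiv ℝ g) O := hg.continuousOn_fderiv_of_isOpen hO (by norm_num)

/-- continuity of the Levi form along a continuous map and a continuous field -/
lemma contOn_lev {S : Set (V n)} {O : Set (V n)} (hO : IsOpen O) {g : V n → ℝ}
    (hg : ContDiffOn ℝ 2 g O) {F v : V n → V n} (hF : ContinuousOn F S) (hv : ContinuousOn v S)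
    (hm : ∀ z ∈ S, F z ∈ O) : ContinuousOn (fun z => lev g (F z) (v z)) S := by
  have h2 := (contOn_fderiv2 hO hg).comp hF hm
  have h3 : ContinuousOn (fun z => (4 : ℝ)⁻¹ • (fderiv ℝ (fderiv ℝ g) (F z) (v z) (v z) +
      fderiv ℝ (fderiv ℝ g) (F z) (Complex.I • v z) (Complex.I • v z))) S := by
    have hI : ContinuousOn (fun z => Complex.I • v z) S := hv.const_smul Complex.I
    have h4 : ContinuousOn (fun z => fderiv ℝ (fderiv ℝ g) (F z) (v z) (v z)) S :=
      (h2.clm_apply hv).clm_apply hv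
    have h5 : ContinuousOn (fun z => fderiv ℝ (fderiv ℝ g) (F z) (Complex.I • v z)
        (Complex.I • v z)) S := (h2.clm_apply hI).clm_apply hI
    exact (h4.add h5).const_smul (4 : ℝ)⁻¹
  refine h3.congr ?_
  intro z hz
  exact lev_eq (hg.contDiffAt (hO.mem_nhds (hm z hz))) (v z)

lemma contOn_dr {S : Set (V n)} {O : Set (V n)} (hO : IsOpen O) {g : V n → ℝ}
    (hg : ContDiffOn ℝ 1 g O) {F v : V n → V n} (hF : ContinuousOn F S) (hv : ContinuousOn v S)
    (hm : ∀ z ∈ S, F z ∈ O) : ContinuousOn (fun z => dr g (F z) (v z)) S := by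
  have h2 := (contOn_fderiv1 hO hg).comp hF hm
  unfold dr
  have hI : ContinuousOn (fun z => Complex.I • v z) S := hv.const_smul Complex.I
  have h3 : ContinuousOn (fun z => ((fderiv ℝ g (F z) (v z) : ℝ) : ℂ)) S :=
    Complex.continuous_ofReal.comp_continuousOn (h2.clm_apply hv)
  have h4 : ContinuousOn (fun z => ((fderiv ℝ g (F z) (Complex.I • v z) : ℝ) : ℂ)) S :=
    Complex.continuous_ofReal.comp_continuousOn (h2.clm_apply hI)
  exact (h3.sub (continuousOn_const.mul h4)).div_const 2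

/-! ### the jacobian on `Oa` -/

variable {X : Type} [TopologicalSpace X] {ι : Type}

lemma contOn_jac (hSMO : T_SMO) {O : Set (V n)} (hO : IsOpen O) {Y : V n → V n}
    (hY : DifferentiableOn ℂ Y O) : ContinuousOn (fun z => jac Y z) O := by
  have h := (hSMO n (V n) O Y hO hY).2.2
  refine continuousOn_pi.mpr fun i => continuousOn_pi.mpr fun j => ?_
  have h1 := (h (ek j)).continuousOn
  exact (continuous_apply i).comp_continuousOn h1

lemma contOn_det (hSMO : T_SMO) {O : Set (V n)} (hO : IsOpen O) {Y : V n → V n}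
    (hY : DifferentiableOn ℂ Y O) : ContinuousOn (fun z => (jac Y z).det) O :=
  (Continuous.matrix_det continuous_id).comp_continuousOn (contOn_jac hSMO hO hY)

lemma contOn_cf (hSMO : T_SMO) {O : Set (V n)} (hO : IsOpen O) {Y : V n → V n}
    (hY : DifferentiableOn ℂ Y O) (k : Fin n) : ContinuousOn (cf Y k) O := by
  refine continuousOn_pi.mpr fun i => ?_
  have h1 : Continuous (fun M : Matrix (Fin n) (Fin n) ℂ => M.adjugate i k) :=
    (Continuous.matrix_adjugate continuous_id).matrix_elem i k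
  exact h1.comp_continuousOn (contOn_jac hSMO hO hY)

lemma norm_cf_sq_le (hDOM : T_DOM) {Y : V n → V n} {z : V n} (hY : DifferentiableAt ℂ Y z)
    (k : Fin n) : ‖cf Y k z‖ ^ 2 ≤ Dm Y z := by
  have h := hDOM n Y z hY
  have h0 : 0 ≤ Dm Y z := le_trans zero_le_one h.1
  have h1 : ‖cf Y k z‖ ≤ Real.sqrt (Dm Y z) := by
    refine (pi_norm_le_iff_of_nonneg (Real.sqrt_nonneg _)).mpr fun i => ?_
    exact Real.le_sqrt_of_sq_le (h.2.2.2.2.1 k i)
  calc ‖cf Y k z‖ ^ 2 ≤ Real.sqrt (Dm Y z) ^ 2 := by gcongr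
    _ = Dm Y z := Real.sq_sqrt h0

/-- integrability on `Oa` of continuous functions dominated by the minors, with compact support
in `Dp n` -/
lemma intOa {A : Atl n X ι} {f : V n → X} {I : Set (V n)} (hS : Sing A f I) {a : ι}
    (hO : IsOpen (Oa A f I a)) (hO2 : Oa A f I a ⊆ (Dp n \ I) ∩ Cb A f a 2)
    {E : Type*} [NormedAddCommGroup E]
    {K : Set (V n)} (hK : K ⊆ Dp n) (hKc : IsCompact K) {G : V n → E}
    (hG : ContinuousOn G (Oa A f I a)) {C : ℝ}
    (hb : ∀ z ∈ Oa A f I a, ‖G z‖ ≤ C * Dm (FF A f a) z)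
    (hz : ∀ z ∈ Oa A f I a, z ∉ K → G z = 0) : IntegrableOn G (Oa A f I a) := by
  have hms : MeasurableSet (Oa A f I a) := hO.measurableSet
  have hmeas : AEStronglyMeasurable G (volume.restrict (Oa A f I a)) := by
    exact hG.aestronglyMeasurable hms
  refine ⟨hmeas, ?_⟩
  have hC : ∀ z ∈ Oa A f I a, ‖G z‖ ≤ |C| * Dm (FF A f a) z := fun z hz' => by
    refine (hb z hz').trans ?_
    have : 0 ≤ Dm (FF A f a) z := Finset.sum_nonneg fun _ _ => by positivity
    exact mul_le_mul_of_nonneg_right (le_abs_self C) this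
  have h1 := hS.s1 K hK hKc a
  rw [hasFiniteIntegral_iff_enorm]
  have hsub : Oa A f I a ∩ K ⊆ (K \ I) ∩ Cb A f a 2 := fun z hz' =>
    ⟨⟨hz'.2, (hO2 hz'.1).1.2⟩, (hO2 hz'.1).2⟩
  calc ∫⁻ z in Oa A f I a, ‖G z‖ₑ
      = ∫⁻ z in Oa A f I a, (K.indicator (fun z => ‖G z‖ₑ)) z := by
        refine setLIntegral_congr_fun hms fun z hz' => ?_
        by_cases hzK : z ∈ K
        · simp [hzK]
        · simp [hzK, hz z hz' hzK]
    _ ≤ ∫⁻ z in Oa A f I a, (K.indicator
          (fun z => ENNReal.ofReal (|C| * Dm (FF A f a) z))) z := by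
        refine setLIntegral_mono' hms fun z hz' => ?_
        by_cases hzK : z ∈ K
        · simp only [indicator_of_mem hzK]
          rw [← ofReal_norm]
          exact ENNReal.ofReal_le_ofReal (hC z hz')
        · simp [hzK]
    _ = ∫⁻ z in Oa A f I a ∩ K, ENNReal.ofReal (|C| * Dm (FF A f a) z) := by
        rw [lintegral_indicator hKc.measurableSet, Measure.restrict_restrict hKc.measurableSet,
          inter_comm]
    _ ≤ ∫⁻ z in (K \ I) ∩ Cb A f a 2, ENNReal.ofReal (|C| * Dm (FF A f a) z) :=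
        lintegral_mono_set hsub
    _ = ENNReal.ofReal |C| * ∫⁻ z in (K \ I) ∩ Cb A f a 2,
          ENNReal.ofReal (Dm (FF A f a) z) := by
        rw [← lintegral_const_mul' _ _ ENNReal.ofReal_ne_top]
        refine lintegral_congr fun z => ?_
        rw [ENNReal.ofReal_mul (abs_nonneg _)]
    _ < ⊤ := ENNReal.mul_lt_top ENNReal.ofReal_lt_top h1

/-- `Wt` on `Dp n \ I`: it vanishes outside `Oa` -/
lemma wt_of_notMem {A : Atl n X ι} {f : V n → X} {I : Set (V n)} {w : ι → V n → ℝ} {a : ι}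
    (hw : ∀ y, w a y ≠ 0 → y ∈ Metric.closedBall (0 : V n) (3 / 2)) {z : V n}
    (hz : z ∈ Dp n \ I) (hza : z ∉ Oa A f I a) : Wt A w a (f z) = 0 := by
  unfold Wt
  by_cases hs : f z ∈ (A.φ a).source
  · rw [indicator_of_mem hs]
    by_contra hne
    have := hw _ hne
    refine hza ⟨hz, hs, ?_⟩
    exact Metric.closedBall_subset_ball (by norm_num) this
  · rw [indicator_of_notMem hs]

lemma wt_of_mem {A : Atl n X ι} {f : V n → X} {I : Set (V n)} {w : ι → V n → ℝ} {a : ι}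
    {z : V n} (hza : z ∈ Oa A f I a) : Wt A w a (f z) = w a (FF A f a z) := by
  unfold Wt FF
  rw [indicator_of_mem hza.2.1]

lemma oa_subset {A : Atl n X ι} {f : V n → X} {I : Set (V n)} {a : ι} :
    Oa A f I a ⊆ Dp n \ I := fun _ hz => hz.1

/-- restricting an integral to `Oa` -/
lemma int_oa {E : Type*} [NormedAddCommGroup E] [NormedSpace ℝ E] {A : Atl n X ι} {f : V n → X}
    {I : Set (V n)} {a : ι} (hD : IsOpen (Dp n \ I)) {G : V n → E}
    (hz : ∀ z ∈ Dp n \ I, z ∉ Oa A f I a → G z = 0) :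
    (∫ z in Dp n \ I, G z = ∫ z in Oa A f I a, G z) ∧
    (IntegrableOn G (Oa A f I a) → IntegrableOn G (Dp n \ I)) := by
  constructor
  · exact setIntegral_eq_of_subset_of_forall_sdiff_eq_zero hD.measurableSet oa_subset
      (fun z hz' => hz z hz'.1 hz'.2)
  · intro h
    exact h.of_forall_sdiff_eq_zero hD.measurableSet (fun z hz' => hz z hz'.1 hz'.2)

end Pool.Agent.H42.VG
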