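import Mathlib
import Pool.Agent.H95.VG.Targets1
import Pool.Agent.H42.VG.Basic

/-!
# VG: module F1 (helper42)
-/

open MeasureTheory Set Filter Topology
open scoped ENNReal NNReal ContDiff ComplexConjugate

namespace Pool.Agent.H42.VG

open Pool.Agent.H95.VG

variable {n : ℕ} {X : Type} [TopologicalSpace X] {ι : Type}

/-- cross term -/
noncomputable def CR [Fintype ι] (A : Atl n X ι) (w : ι → V n → ℝ) (f : V n → X)
    (φ g : V n → ℝ) (z : V n) : ℝ :=
  ∑ a, Wt A w a (f z) * ∑ k, (dr φ z (cf (FF A f a) k z) * conj (dr g z (cf (FF A f a) k z))).re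

/-! ### germs -/

lemma fderiv_congr_ev {φ ψ : V n → ℝ} {z : V n} (h : φ =ᶠ[𝓝 z] ψ) :
    fderiv ℝ φ z = fderiv ℝ ψ z := h.fderiv_eq

lemma dr_congr_ev {φ ψ : V n → ℝ} {z : V n} (h : φ =ᶠ[𝓝 z] ψ) (v : V n) :
    dr φ z v = dr ψ z v := by
  unfold dr; rw [h.fderiv_eq]

lemma lev_congr_ev {φ ψ : V n → ℝ} {z : V n} (h : φ =ᶠ[𝓝 z] ψ) (v : V n) :
    lev φ z v = lev ψ z v := by
  unfold lev
  have h1 : ∀ u : V n, (fun x => fderiv ℝ φ x u) =ᶠ[𝓝 z] fun x => fderiv ℝ ψ x u := by
    intro u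
    filter_upwards [h.fderiv (𝕜 := ℝ)] with x hx
    rw [hx]
  rw [(h1 v).fderiv_eq, (h1 _).fderiv_eq]

lemma LL_congr_ev [Fintype ι] (A : Atl n X ι) (w : ι → V n → ℝ) (f : V n → X) {φ ψ : V n → ℝ}
    {z : V n} (h : φ =ᶠ[𝓝 z] ψ) : LL A w f φ z = LL A w f ψ z := by
  unfold LL
  simp only [lev_congr_ev h]

lemma LLs_congr_ev [Fintype ι] (A : Atl n X ι) (w : ι → V n → ℝ) (f : V n → X) {φ ψ : V n → ℝ}
    {z : V n} (h : φ =ᶠ[𝓝 z] ψ) : LLs A w f φ z = LLs A w f ψ z := by
  unfold LLs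
  rw [LL_congr_ev A w f h]
  simp only [dr_congr_ev h]

lemma CR_congr_left [Fintype ι] (A : Atl n X ι) (w : ι → V n → ℝ) (f : V n → X)
    {φ ψ g : V n → ℝ} {z : V n} (h : φ =ᶠ[𝓝 z] ψ) : CR A w f φ g z = CR A w f ψ g z := by
  unfold CR
  simp only [dr_congr_ev h]

lemma CR_congr_right [Fintype ι] (A : Atl n X ι) (w : ι → V n → ℝ) (f : V n → X)
    {φ g g' : V n → ℝ} {z : V n} (h : g =ᶠ[𝓝 z] g') : CR A w f φ g z = CR A w f φ g' z := by
  unfold CR
  simp only [dr_congr_ev h]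

lemma dr_const (c : ℝ) (z v : V n) : dr (fun _ => c) z v = 0 := by
  unfold dr
  simp

lemma lev_const (c : ℝ) (z v : V n) : lev (fun _ : V n => c) z v = 0 := by
  unfold lev
  simp

lemma LL_const [Fintype ι] (A : Atl n X ι) (w : ι → V n → ℝ) (f : V n → X) (c : ℝ) (z : V n) :
    LL A w f (fun _ => c) z = 0 := by
  unfold LL
  simp [lev_const]

lemma LLs_const [Fintype ι] (A : Atl n X ι) (w : ι → V n → ℝ) (f : V n → X) (c : ℝ) (z : V n) :
    LLs A w f (fun _ => c) z = 0 := by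
  unfold LLs
  rw [LL_const]
  simp [dr_const]

lemma CR_const_left [Fintype ι] (A : Atl n X ι) (w : ι → V n → ℝ) (f : V n → X) (c : ℝ)
    (g : V n → ℝ) (z : V n) : CR A w f (fun _ => c) g z = 0 := by
  unfold CR
  simp [dr_const]

lemma CR_const_right [Fintype ι] (A : Atl n X ι) (w : ι → V n → ℝ) (f : V n → X) (c : ℝ)
    (g : V n → ℝ) (z : V n) : CR A w f g (fun _ => c) z = 0 := by
  unfold CR
  simp [dr_const]

lemma lev_sub_const (g : V n → ℝ) (c : ℝ) (z v : V n) : lev (fun x => g x - c) z v = lev g z v := by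
  have h : fderiv ℝ (fun x => g x - c) = fderiv ℝ g := by
    funext x; exact fderiv_sub_const c
  unfold lev
  rw [h]

lemma LL_sub_const [Fintype ι] (A : Atl n X ι) (w : ι → V n → ℝ) (f : V n → X) (g : V n → ℝ)
    (c : ℝ) (z : V n) : LL A w f (fun x => g x - c) z = LL A w f g z := by
  unfold LL
  simp only [lev_sub_const]

/-! ### cutoffs near points -/

lemma nsq_cont : Continuous (nsq (n := n)) := by
  unfold nsq
  fun_prop

lemma chi_ev_one {z : V n} (hCUT : T_CUT) (hz : nsq z < 1 / 4) :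
    (chi : V n → ℝ) =ᶠ[𝓝 z] fun _ => 1 := by
  have h : ∀ᶠ x in 𝓝 z, nsq x < 1 / 4 := nsq_cont.continuousAt.eventually_lt_const hz
  filter_upwards [h] with x hx
  exact ((hCUT n).2.2.1 x).2.2.1 hx.le

lemma lu_cont {z : V n} (hz : 0 < nsq z) : ContinuousAt (lu (n := n)) z := by
  unfold lu
  exact (nsq_cont.continuousAt.log hz.ne').div_const 2

lemma rho_ev_one {z : V n} (hCUT : T_CUT) {t : ℝ} (ht : 1 ≤ t) (hz0 : 0 < nsq z)
    (hz : -t < lu z) : (rho t : V n → ℝ) =ᶠ[𝓝 z] fun _ => 1 := by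
  have h : ∀ᶠ x in 𝓝 z, -t < lu x := (lu_cont hz0).eventually_const_lt hz
  have h' : ∀ᶠ x in 𝓝 z, 0 < nsq x := nsq_cont.continuousAt.eventually_const_lt hz0
  filter_upwards [h, h'] with x hx hx'
  exact (((hCUT n).2.2.2.1 t ht).2.1 x).2.2.1 hx' hx.le

lemma rho_ev_zero {z : V n} (hCUT : T_CUT) {t : ℝ} (ht : 1 ≤ t) (hz0 : 0 < nsq z)
    (hz : lu z < -2 * t) : (rho t : V n → ℝ) =ᶠ[𝓝 z] fun _ => 0 := by
  have h : ∀ᶠ x in 𝓝 z, lu x < -2 * t := (lu_cont hz0).eventually_lt_const hz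
  filter_upwards [h] with x hx
  exact (((hCUT n).2.2.2.1 t ht).2.1 x).2.2.2 (Or.inl hx.le)

lemma lu_gt_of {z : V n} (hz : 1 / 4 ≤ nsq z) : -1 < lu z := by
  unfold lu
  have h1 : Real.log (1 / 4) ≤ Real.log (nsq z) := Real.log_le_log (by norm_num) hz
  have h2 : Real.log (1 / 4) = - (2 * Real.log 2) := by
    rw [Real.log_div one_ne_zero (by norm_num), Real.log_one,
      show (4 : ℝ) = 2 ^ 2 by norm_num, Real.log_pow]
    push_cast; ring
  have h3 := Real.log_two_lt_d9
  linarith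

/-- the product of the cutoffs near a point: shell part -/
lemma chirho_ev_chi {z : V n} (hCUT : T_CUT) {t : ℝ} (ht : 1 ≤ t) (hz : 1 / 4 ≤ nsq z) :
    (fun x : V n => chi x * rho t x) =ᶠ[𝓝 z] chi := by
  have h1 := rho_ev_one hCUT ht (by linarith : 0 < nsq z) (by linarith [lu_gt_of hz])
  filter_upwards [h1] with x hx
  rw [hx, mul_one]

lemma chirho_ev_rho {z : V n} (hCUT : T_CUT) (t : ℝ) (hz : nsq z < 1 / 4) :
    (fun x : V n => chi x * rho t x) =ᶠ[𝓝 z] rho t := by
  filter_upwards [chi_ev_one hCUT hz] with x hx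
  rw [hx, one_mul]

/-! ### integrability -/

variable [Fintype ι]

lemma wt_nonneg {A : Atl n X ι} {w : ι → V n → ℝ} (hG : Gau A w) (a : ι) (x : X) :
    0 ≤ Wt A w a x := by
  unfold Wt
  exact indicator_nonneg (fun x _ => hG.nonneg a _) _

/-- continuous functions on `Oa` times the weight are measurable on `Dp n \ I` -/
lemma meas_wt [T2Space X] (hOAO : T_OAO) {A : Atl n X ι} {w : ι → V n → ℝ} {f : V n → X}
    {I : Set (V n)} (hG : Gau A w) (hS : Sing A f I) {a : ι} {b : V n → ℝ}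
    (hb : ContinuousOn b (Oa A f I a)) :
    AEStronglyMeasurable (fun z => Wt A w a (f z) * b z) (volume.restrict (Dp n \ I)) := by
  obtain ⟨hOo, hFd, -, -, -, -⟩ := hOAO n X ι A f I hS a
  have h1 : AEStronglyMeasurable (fun z => w a (FF A f a z) * b z)
      (volume.restrict (Oa A f I a)) :=
    (((hG.smooth a).continuous.comp_continuousOn hFd.continuousOn).mul
      hb).aestronglyMeasurable hOo.measurableSet
  have h2 : AEStronglyMeasurable ((Oa A f I a).indicator (fun z => w a (FF A f a z) * b z))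
      volume := (aestronglyMeasurable_indicator_iff hOo.measurableSet).mpr h1
  refine (h2.mono_measure Measure.restrict_le_self).congr ?_
  refine (ae_restrict_iff' hS.opn.measurableSet).mpr (Eventually.of_forall fun z hz => ?_)
  by_cases hza : z ∈ Oa A f I a
  · show _ = Wt A w a (f z) * b z
    rw [indicator_of_mem hza, wt_of_mem hza]
  · show _ = Wt A w a (f z) * b z
    rw [indicator_of_notMem hza, wt_of_notMem (hG.supp a) hz hza, zero_mul]

lemma dp_open_sub : Dp n ⊆ {z : V n | 0 < nsq z} := fun _ hz => hz.1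

lemma dp_open : IsOpen (Dp n) :=
  (isOpen_lt continuous_const nsq_cont).inter (isOpen_lt nsq_cont continuous_const)

/-- measurability of `LL` -/
lemma meas_LL [T2Space X] (hSMO : T_SMO) (hOAO : T_OAO) {A : Atl n X ι} {w : ι → V n → ℝ}
    {f : V n → X} {I : Set (V n)} (hG : Gau A w) (hS : Sing A f I) {g : V n → ℝ}
    (hg : ContDiffOn ℝ 2 g (Dp n)) :
    AEStronglyMeasurable (LL A w f g) (volume.restrict (Dp n \ I)) := by
  have he : LL A w f g = fun z => ∑ a, Wt A w a (f z) * ∑ k, lev g z (cf (FF A f a) k z) := by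
    funext z; rfl
  rw [he]
  refine Finset.aestronglyMeasurable_fun_sum _ fun a _ => ?_
  obtain ⟨hOo, hFd, -, -, -, -⟩ := hOAO n X ι A f I hS a
  refine meas_wt hOAO hG hS (continuousOn_finsetSum _ fun k _ => ?_)
  exact contOn_lev (F := fun z => z) dp_open hg continuousOn_id (contOn_cf hSMO hOo hFd k)
    (fun z hz => hz.1.1)

lemma meas_CRt [T2Space X] (hSMO : T_SMO) (hOAO : T_OAO) {A : Atl n X ι} {w : ι → V n → ℝ}
    {f : V n → X} {I : Set (V n)} (hG : Gau A w) (hS : Sing A f I) {φ g : V n → ℝ}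
    (hφ : ContDiffOn ℝ 1 φ (Dp n)) (hg : ContDiffOn ℝ 1 g (Dp n)) :
    AEStronglyMeasurable (CR A w f φ g) (volume.restrict (Dp n \ I)) := by
  have he : CR A w f φ g = fun z => ∑ a, Wt A w a (f z) *
      ∑ k, (dr φ z (cf (FF A f a) k z) * conj (dr g z (cf (FF A f a) k z))).re := by
    funext z; rfl
  rw [he]
  refine Finset.aestronglyMeasurable_fun_sum _ fun a _ => ?_
  obtain ⟨hOo, hFd, -, -, -, -⟩ := hOAO n X ι A f I hS a
  refine meas_wt hOAO hG hS (continuousOn_finsetSum _ fun k _ => ?_)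
  have h1 := contOn_dr (F := fun z => z) dp_open hφ continuousOn_id (contOn_cf hSMO hOo hFd k)
    (fun z hz => hz.1.1)
  have h2 := contOn_dr (F := fun z => z) dp_open hg continuousOn_id (contOn_cf hSMO hOo hFd k)
    (fun z hz => hz.1.1)
  exact Complex.continuous_re.comp_continuousOn
    (h1.mul (Complex.continuous_conj.comp_continuousOn h2))

/-! ### the basic identity -/

/-- product rule for `LL` -/
lemma LL_mul (hPRD : T_PRD) (A : Atl n X ι) (w : ι → V n → ℝ) (f : V n → X)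
    {φ g : V n → ℝ} {z : V n} (hφ : ContDiffAt ℝ 2 φ z) (hg : ContDiffAt ℝ 2 g z) :
    LL A w f (fun x => φ x * g x) z
      = φ z * LL A w f g z + (g z * LL A w f φ z + 2 * CR A w f φ g z) := by
  unfold LL CR
  rw [Finset.mul_sum, Finset.mul_sum, Finset.mul_sum, ← Finset.sum_add_distrib,
    ← Finset.sum_add_distrib]
  refine Finset.sum_congr rfl fun a _ => ?_
  have h : ∀ k, lev (fun x => φ x * g x) z (cf (FF A f a) k z)
      = φ z * lev g z (cf (FF A f a) k z) + g z * lev φ z (cf (FF A f a) k z)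
      + 2 * (dr φ z (cf (FF A f a) k z) * conj (dr g z (cf (FF A f a) k z))).re := fun k =>
    (hPRD n z (cf (FF A f a) k z)).2.2.1 φ g hφ hg
  simp only [h, Finset.sum_add_distrib, ← Finset.mul_sum]
  ring

/-- `R φ g = g LL φ + 2 CR φ g` -/
noncomputable def RR (A : Atl n X ι) (w : ι → V n → ℝ) (f : V n → X) (φ g : V n → ℝ)
    (z : V n) : ℝ := g z * LL A w f φ z + 2 * CR A w f φ g z

lemma basic [T2Space X] (hPRD : T_PRD) (hSTA : T_STA) (hADJ : T_ADJ) {A : Atl n X ι}
    {w : ι → V n → ℝ} {f : V n → X} {I : Set (V n)} (hG : Gau A w) (hS : Sing A f I)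
    {φ g : V n → ℝ} (hφ : ContDiff ℝ 2 φ) (hφc : HasCompactSupport φ) (hφs : tsupport φ ⊆ Dp n)
    (hg : ContDiff ℝ 2 g) :
    IntegrableOn (fun z => φ z * LL A w f g z) (Dp n \ I) ∧
    IntegrableOn (RR A w f φ g) (Dp n \ I) ∧
    IntegrableOn (fun z => g z * LLs A w f φ z) (Dp n \ I) ∧
    ∫ z in Dp n \ I, φ z * LL A w f g z = - ∫ z in Dp n \ I, RR A w f φ g z ∧
    ∫ z in Dp n \ I, g z * LLs A w f φ z = - ∫ z in Dp n \ I, RR A w f φ g z := by
  obtain ⟨h1, h2, h3⟩ := hADJ n X ι A w f I hG hS φ g hφ hφc hφs hg.contDiffOn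
  have hs : tsupport (fun z => φ z * g z) ⊆ Dp n := (tsupport_mul_subset_left).trans hφs
  obtain ⟨h4, h5⟩ := hSTA n X ι A w f I hG hS (fun z => φ z * g z) (hφ.mul hg)
    hφc.mul_right hs
  have he : ∀ z, RR A w f φ g z = LL A w f (fun z => φ z * g z) z - φ z * LL A w f g z := by
    intro z
    rw [LL_mul hPRD A w f hφ.contDiffAt hg.contDiffAt]
    unfold RR; ring
  have he' : RR A w f φ g = fun z => LL A w f (fun z => φ z * g z) z - φ z * LL A w f g z := by
    funext z; exact he z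
  have h6 : IntegrableOn (RR A w f φ g) (Dp n \ I) := by
    rw [he']; exact h4.sub h1
  have h7 : ∫ z in Dp n \ I, φ z * LL A w f g z = - ∫ z in Dp n \ I, RR A w f φ g z := by
    rw [he', integral_sub h4 h1, h5]; ring
  exact ⟨h1, h6, h2, h7, by rw [← h3, h7]⟩

/-- the identity for `chi` -/
lemma chi_id [T2Space X] (hPRD : T_PRD) (hCUT : T_CUT) (hSTA : T_STA) (hADJ : T_ADJ)
    {A : Atl n X ι} {w : ι → V n → ℝ} {f : V n → X} {I : Set (V n)} (hG : Gau A w)
    (hS : Sing A f I) {g : V n → ℝ} (hg : ContDiff ℝ 2 g) :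
    IntegrableOn (RR A w f chi g) (Dp n \ I) ∧
    IntegrableOn (fun z => g z * LLs A w f chi z) (Dp n \ I) ∧
    ∫ z in Dp n \ I, g z * LLs A w f chi z = - ∫ z in Dp n \ I, RR A w f chi g z := by
  have hC := hCUT n
  obtain ⟨hchi, -, -, hrho, -⟩ := hC
  have h3 := hrho 3 (by norm_num)
  have h1 := hrho 1 le_rfl
  have hφ : ContDiff ℝ 2 (fun z : V n => chi z * rho 3 z) :=
    (hchi.mul h3.1).of_le (by norm_cast)
  have hg' : ContDiff ℝ 2 (fun z => g z * rho 1 z) := hg.mul (h1.1.of_le (by norm_cast))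
  obtain ⟨-, b2, b3, -, b5⟩ := basic hPRD hSTA hADJ hG hS hφ h3.2.2.1 h3.2.2.2 hg'
  have hm : MeasurableSet (Dp n \ I) := hS.opn.measurableSet
  have key : ∀ z ∈ Dp n \ I,
      RR A w f (fun z => chi z * rho 3 z) (fun z => g z * rho 1 z) z = RR A w f chi g z ∧
      g z * rho 1 z * LLs A w f (fun z => chi z * rho 3 z) z = g z * LLs A w f chi z := by
    intro z hz
    have hz0 : 0 < nsq z := hz.1.1
    by_cases hq : 1 / 4 ≤ nsq z
    · have e1 := chirho_ev_chi hCUT (by norm_num : (1:ℝ) ≤ 3) hq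
      have e2 : (fun z => g z * rho 1 z) =ᶠ[𝓝 z] g := by
        filter_upwards [rho_ev_one hCUT le_rfl hz0 (lu_gt_of hq)] with x hx
        rw [hx, mul_one]
      have e3 : g z * rho 1 z = g z := e2.eq_of_nhds
      unfold RR
      beta_reduce
      rw [LL_congr_ev A w f e1, CR_congr_left A w f e1, CR_congr_right A w f e2,
        LLs_congr_ev A w f e1, e3]
      exact ⟨rfl, rfl⟩
    · have hq' : nsq z < 1 / 4 := not_le.mp hq
      have c1 := chi_ev_one hCUT hq'
      have e1 := chirho_ev_rho hCUT 3 hq'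
      have z1 : LL A w f chi z = 0 := by rw [LL_congr_ev A w f c1, LL_const]
      have z2 : LLs A w f chi z = 0 := by rw [LLs_congr_ev A w f c1, LLs_const]
      have z3 : CR A w f chi g z = 0 := by rw [CR_congr_left A w f c1, CR_const_left]
      unfold RR
      beta_reduce
      rw [LL_congr_ev A w f e1, CR_congr_left A w f e1, LLs_congr_ev A w f e1, z1, z2, z3]
      by_cases hl : -3 < lu z
      · have r1 := rho_ev_one hCUT (by norm_num : (1:ℝ) ≤ 3) hz0 hl
        rw [LL_congr_ev A w f r1, LL_const, CR_congr_left A w f r1, CR_const_left,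
          LLs_congr_ev A w f r1, LLs_const]
        constructor <;> ring
      · have hl' : lu z < -2 * 1 := by linarith [not_lt.mp hl]
        have r1 := rho_ev_zero hCUT le_rfl hz0 hl'
        have r2 : (fun z => g z * rho 1 z) =ᶠ[𝓝 z] fun _ => 0 := by
          filter_upwards [r1] with x hx
          rw [hx, mul_zero]
        have r3 : g z * rho 1 z = 0 := r2.eq_of_nhds
        rw [CR_congr_right A w f r2, CR_const_right, r3]
        constructor <;> ring
  refine ⟨b2.congr_fun (fun z hz => (key z hz).1) hm,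
    b3.congr_fun (fun z hz => (key z hz).2) hm, ?_⟩
  rw [← setIntegral_congr_fun hm (fun z hz => (key z hz).2),
    ← setIntegral_congr_fun hm (fun z hz => (key z hz).1)]
  exact b5

/-- the error term -/
lemma main_id [T2Space X] (hPRD : T_PRD) (hCUT : T_CUT) (hSTA : T_STA) (hADJ : T_ADJ)
    {A : Atl n X ι} {w : ι → V n → ℝ} {f : V n → X} {I : Set (V n)} (hG : Gau A w)
    (hS : Sing A f I) {g : V n → ℝ} (hg : ContDiff ℝ 2 g) {t : ℝ} (ht : 1 ≤ t) :
    ∫ z in Dp n \ I, (chi z * rho t z) * LL A w f g z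
      = (∫ z in Dp n \ I, g z * LLs A w f chi z)
        - ∫ z in (Dp n \ I) ∩ {z | nsq z < 1 / 4}, RR A w f (rho t) g z := by
  obtain ⟨hchi, -, -, hrho, -⟩ := hCUT n
  have h3 := hrho t ht
  have hφ : ContDiff ℝ 2 (fun z : V n => chi z * rho t z) :=
    (hchi.mul h3.1).of_le (by norm_cast)
  obtain ⟨-, b2, -, b4, -⟩ := basic hPRD hSTA hADJ hG hS hφ h3.2.2.1 h3.2.2.2 hg
  obtain ⟨c1, -, c3⟩ := chi_id hPRD hCUT hSTA hADJ hG hS hg
  have hm : MeasurableSet (Dp n \ I) := hS.opn.measurableSet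
  have hq : MeasurableSet {z : V n | nsq z < 1 / 4} :=
    (isOpen_lt nsq_cont continuous_const).measurableSet
  have key : ∀ z ∈ Dp n \ I, {z : V n | nsq z < 1 / 4}.indicator (RR A w f (rho t) g) z
      = RR A w f (fun z => chi z * rho t z) g z - RR A w f chi g z := by
    intro z hz
    by_cases hq : 1 / 4 ≤ nsq z
    · have e1 := chirho_ev_chi hCUT ht hq
      rw [indicator_of_notMem (by simpa using hq)]
      unfold RR
      rw [LL_congr_ev A w f e1, CR_congr_left A w f e1]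
      ring
    · have hq' : nsq z < 1 / 4 := not_le.mp hq
      have c1 := chi_ev_one hCUT hq'
      have e1 := chirho_ev_rho hCUT t hq'
      have z1 : LL A w f chi z = 0 := by rw [LL_congr_ev A w f c1, LL_const]
      have z3 : CR A w f chi g z = 0 := by rw [CR_congr_left A w f c1, CR_const_left]
      rw [indicator_of_mem (by simpa using hq')]
      unfold RR
      rw [LL_congr_ev A w f e1, CR_congr_left A w f e1, z1, z3]
      ring
  have e : ∫ z in (Dp n \ I) ∩ {z | nsq z < 1 / 4}, RR A w f (rho t) g z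
      = (∫ z in Dp n \ I, RR A w f (fun z => chi z * rho t z) g z)
        - ∫ z in Dp n \ I, RR A w f chi g z := by
    rw [← setIntegral_indicator hq, setIntegral_congr_fun hm key, integral_sub b2 c1]
  rw [b4, c3, e]; ring

/-! ### limits -/

lemma meas_GE [T2Space X] (hSMO : T_SMO) (hOAO : T_OAO) {A : Atl n X ι} {w : ι → V n → ℝ}
    {f : V n → X} {I : Set (V n)} (hG : Gau A w) (hS : Sing A f I) {g : V n → ℝ}
    (hg : ContDiffOn ℝ 1 g (Dp n)) :
    AEStronglyMeasurable (GE A w f g) (volume.restrict (Dp n \ I)) := by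
  have he : GE A w f g = fun z => ∑ a, Wt A w a (f z) * ∑ k, ge g z (cf (FF A f a) k z) := by
    funext z; rfl
  rw [he]
  refine Finset.aestronglyMeasurable_fun_sum _ fun a _ => ?_
  obtain ⟨hOo, hFd, -, -, -, -⟩ := hOAO n X ι A f I hS a
  refine meas_wt hOAO hG hS (continuousOn_finsetSum _ fun k _ => ?_)
  have h1 := contOn_dr (F := fun z => z) dp_open hg continuousOn_id (contOn_cf hSMO hOo hFd k)
    (fun z hz => hz.1.1)
  exact h1.norm.pow 2

lemma LL_nsq (hNSQ : T_NSQ) (A : Atl n X ι) (w : ι → V n → ℝ) (f : V n → X) (z : V n) :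
    LL A w f nsq z = ∑ a, Wt A w a (f z) * ∑ k, nsq (cf (FF A f a) k z) := by
  unfold LL
  simp only [(hNSQ n).2.2.2.1]

lemma nsq_nonneg (v : V n) : 0 ≤ nsq v := Finset.sum_nonneg fun _ _ => by positivity

lemma LL_nsq_nonneg (hNSQ : T_NSQ) {A : Atl n X ι} {w : ι → V n → ℝ} (hG : Gau A w)
    (f : V n → X) (z : V n) : 0 ≤ LL A w f nsq z := by
  rw [LL_nsq hNSQ]
  exact Finset.sum_nonneg fun a _ => mul_nonneg (wt_nonneg hG a _)
    (Finset.sum_nonneg fun k _ => nsq_nonneg _)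

/-- bound of the cross term -/
lemma abs_CR_le (hNSQ : T_NSQ) {A : Atl n X ι} {w : ι → V n → ℝ} (hG : Gau A w)
    (f : V n → X) {φ g : V n → ℝ} {z : V n} {C ε : ℝ} (hε : 0 < ε)
    (hC : ‖fderiv ℝ g z‖ ≤ C) :
    |CR A w f φ g z| ≤ ε * GE A w f φ z + ε⁻¹ * C ^ 2 * LL A w f nsq z := by
  have hC0 : 0 ≤ C := (norm_nonneg _).trans hC
  rw [LL_nsq hNSQ]
  unfold CR GE
  refine (Finset.abs_sum_le_sum_abs _ _).trans ?_
  rw [Finset.mul_sum, Finset.mul_sum, ← Finset.sum_add_distrib]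
  refine Finset.sum_le_sum fun a _ => ?_
  rw [abs_mul, abs_of_nonneg (wt_nonneg hG a _)]
  have h1 : |∑ k, (dr φ z (cf (FF A f a) k z) * conj (dr g z (cf (FF A f a) k z))).re|
      ≤ ε * ∑ k, ge φ z (cf (FF A f a) k z) + ε⁻¹ * C ^ 2 * ∑ k, nsq (cf (FF A f a) k z) := by
    refine (Finset.abs_sum_le_sum_abs _ _).trans ?_
    rw [Finset.mul_sum, Finset.mul_sum, ← Finset.sum_add_distrib]
    refine Finset.sum_le_sum fun k _ => ?_
    set v := cf (FF A f a) k z
    have h2 : |(dr φ z v * conj (dr g z v)).re| ≤ ‖dr φ z v‖ * ‖dr g z v‖ := by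
      refine (Complex.abs_re_le_norm _).trans ?_
      rw [norm_mul, Complex.norm_conj]
    have h3 : ‖dr g z v‖ ^ 2 ≤ C ^ 2 * nsq v := by
      have h4 : ‖dr g z v‖ ≤ C * ‖v‖ := (norm_dr_le g z v).trans (by gcongr)
      calc ‖dr g z v‖ ^ 2 ≤ (C * ‖v‖) ^ 2 := by gcongr
        _ = C ^ 2 * ‖v‖ ^ 2 := by ring
        _ ≤ C ^ 2 * nsq v := by
          have := ((hNSQ n).2.2.2.2.2 v).1
          gcongr
    have h5 : ‖dr φ z v‖ * ‖dr g z v‖ ≤ ε * ‖dr φ z v‖ ^ 2 + ε⁻¹ * ‖dr g z v‖ ^ 2 := by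
      have h6 : ε * ε⁻¹ = 1 := mul_inv_cancel₀ hε.ne'
      have h7 : 0 ≤ ε⁻¹ * (ε * ‖dr φ z v‖ - ‖dr g z v‖) ^ 2 := by positivity
      have h8 : ε⁻¹ * (ε * ‖dr φ z v‖ - ‖dr g z v‖) ^ 2
          = ε * ‖dr φ z v‖ ^ 2 * (ε * ε⁻¹) - 2 * (ε * ε⁻¹) * (‖dr φ z v‖ * ‖dr g z v‖)
            + ε⁻¹ * ‖dr g z v‖ ^ 2 := by ring
      rw [h6] at h8
      have h9 : 0 ≤ ‖dr φ z v‖ * ‖dr g z v‖ := by positivity
      linarith
    have h10 : ε⁻¹ * ‖dr g z v‖ ^ 2 ≤ ε⁻¹ * (C ^ 2 * nsq v) := by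
      gcongr
    unfold ge
    linarith
  calc Wt A w a (f z) * |∑ k, (dr φ z (cf (FF A f a) k z) *
        conj (dr g z (cf (FF A f a) k z))).re|
      ≤ Wt A w a (f z) * (ε * ∑ k, ge φ z (cf (FF A f a) k z) +
          ε⁻¹ * C ^ 2 * ∑ k, nsq (cf (FF A f a) k z)) :=
        mul_le_mul_of_nonneg_left h1 (wt_nonneg hG a _)
    _ = _ := by ring

/-- the mass of `LL nsq` near the origin tends to zero -/
lemma mass_tendsto [T2Space X] (hSMO : T_SMO) (hNSQ : T_NSQ) (hOAO : T_OAO) {A : Atl n X ι}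
    {w : ι → V n → ℝ} {f : V n → X} {I : Set (V n)} (hG : Gau A w) (hS : Sing A f I)
    (hfin : ∫⁻ z in (Dp n \ I) ∩ {z | nsq z ≤ 1 / 4}, ENNReal.ofReal (LL A w f nsq z) < ⊤) :
    Tendsto (fun t : ℝ => ∫⁻ z in (Dp n \ I) ∩ {z | nsq z ≤ 1 / 4},
      {z : V n | lu z ≤ -t}.indicator (fun z => ENNReal.ofReal (LL A w f nsq z)) z)
      atTop (𝓝 0) := by
  have hlu : Measurable (lu (n := n)) := by
    unfold lu
    exact (Real.measurable_log.comp nsq_cont.measurable).div_const 2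
  have hmeas : AEMeasurable (fun z => ENNReal.ofReal (LL A w f nsq z))
      (volume.restrict ((Dp n \ I) ∩ {z | nsq z ≤ 1 / 4})) := by
    have h1 := (meas_LL hSMO hOAO hG hS (g := nsq)
      ((hNSQ n).1.of_le (by norm_cast)).contDiffOn).aemeasurable.ennreal_ofReal
    exact h1.mono_measure (Measure.restrict_mono inter_subset_left le_rfl)
  have hm : MeasurableSet ((Dp n \ I) ∩ {z : V n | nsq z ≤ 1 / 4}) :=
    hS.opn.measurableSet.inter (isClosed_le nsq_cont continuous_const).measurableSet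
  set G : V n → ℝ≥0∞ := hmeas.mk _ with hGdef
  have hGm : Measurable G := hmeas.measurable_mk
  have hGe := hmeas.ae_eq_mk
  have e1 : ∀ t : ℝ, ∫⁻ z in (Dp n \ I) ∩ {z | nsq z ≤ 1 / 4},
      {z : V n | lu z ≤ -t}.indicator (fun z => ENNReal.ofReal (LL A w f nsq z)) z
      = ∫⁻ z in (Dp n \ I) ∩ {z | nsq z ≤ 1 / 4}, {z : V n | lu z ≤ -t}.indicator G z := by
    intro t
    refine lintegral_congr_ae ?_
    filter_upwards [hGe] with z hz
    by_cases hl : z ∈ {z : V n | lu z ≤ -t}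
    · rw [indicator_of_mem hl, indicator_of_mem hl, hz]
    · rw [indicator_of_notMem hl, indicator_of_notMem hl]
  have h := tendsto_lintegral_filter_of_dominated_convergence (l := (atTop : Filter ℝ))
    (μ := volume.restrict ((Dp n \ I) ∩ {z : V n | nsq z ≤ 1 / 4}))
    (F := fun t z => {z : V n | lu z ≤ -t}.indicator G z) (f := fun _ => 0) G ?_ ?_ ?_ ?_
  · simp only [e1]
    simpa using h
  · refine Eventually.of_forall fun t => ?_
    exact hGm.indicator (measurableSet_le hlu measurable_const)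
  · refine Eventually.of_forall fun t => Eventually.of_forall fun z => ?_
    exact indicator_le_self _ _ _
  · rw [← lintegral_congr_ae hGe]
    exact hfin.ne
  · refine (ae_restrict_iff' hm).mpr (Eventually.of_forall fun z hz => ?_)
    refine tendsto_const_nhds.congr' ?_
    filter_upwards [eventually_gt_atTop (-lu z)] with t ht
    rw [indicator_of_notMem]
    show ¬ (lu z ≤ -t)
    linarith

lemma GE_nonneg {A : Atl n X ι} {w : ι → V n → ℝ} (hG : Gau A w) (f : V n → X) (φ : V n → ℝ)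
    (z : V n) : 0 ≤ GE A w f φ z :=
  Finset.sum_nonneg fun a _ => mul_nonneg (wt_nonneg hG a _)
    (Finset.sum_nonneg fun k _ => by unfold ge; positivity)

/-- energy of `rho t` -/
lemma GE_rho_bound [T2Space X] (hSMO : T_SMO) (hCUT : T_CUT) (hOAO : T_OAO) {A : Atl n X ι}
    {w : ι → V n → ℝ} {f : V n → X} {I : Set (V n)} (hG : Gau A w) (hS : Sing A f I) {C : ℝ}
    (hC0 : 0 ≤ C) (hC : ∀ t : ℝ, 1 ≤ t → ∀ a k,
      ∫⁻ z in (Dp n \ I) ∩ Cb A f a 2 ∩ {z | nsq z ≤ 1 / 4},
      ENNReal.ofReal (ge (rho t) z (cf (FF A f a) k z)) ≤ ENNReal.ofReal C) :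
    ∃ E : ℝ, 0 ≤ E ∧ ∀ t : ℝ, 1 ≤ t →
      ∫⁻ z in (Dp n \ I) ∩ {z | nsq z ≤ 1 / 4}, ENNReal.ofReal (GE A w f (rho t) z)
        ≤ ENNReal.ofReal E := by
  have hb : ∀ a : ι, ∃ L : ℝ, 0 ≤ L ∧ ∀ y, |w a y| ≤ L := by
    intro a
    have hcb : IsCompact (Metric.closedBall (0 : V n) (3 / 2)) := isCompact_closedBall _ _
    obtain ⟨P, hP⟩ := hcb.exists_bound_of_continuousOn (f := w a)
      (hG.smooth a).continuous.continuousOn
    have hy0 : (0 : V n) ∈ Metric.closedBall (0 : V n) (3 / 2) :=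
      Metric.mem_closedBall_self (by norm_num)
    have p2 : 0 ≤ P := (norm_nonneg _).trans (hP 0 hy0)
    refine ⟨P, p2, fun y => ?_⟩
    by_cases hy : y ∈ Metric.closedBall (0 : V n) (3 / 2)
    · exact hP y hy
    · have : w a y = 0 := by
        by_contra hne; exact hy (hG.supp a y hne)
      rw [this, abs_zero]; exact p2
  choose L hL0 hL using hb
  refine ⟨∑ a, ∑ _k : Fin n, L a * C, Finset.sum_nonneg fun a _ => Finset.sum_nonneg fun k _ =>
    mul_nonneg (hL0 a) hC0, fun t ht => ?_⟩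
  have hrs : ContDiffOn ℝ 1 (rho (n := n) t) (Dp n) :=
    (((hCUT n).2.2.2.1 t ht).1.of_le (by norm_cast)).contDiffOn
  have hq : MeasurableSet {z : V n | nsq z ≤ 1 / 4} :=
    (isClosed_le nsq_cont continuous_const).measurableSet
  have hm : MeasurableSet ((Dp n \ I) ∩ {z : V n | nsq z ≤ 1 / 4}) :=
    hS.opn.measurableSet.inter hq
  set b : ι → Fin n → V n → ℝ := fun a k z =>
    Wt A w a (f z) * ge (rho t) z (cf (FF A f a) k z) with hbdef
  have hbn : ∀ a k z, 0 ≤ b a k z := fun a k z =>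
    mul_nonneg (wt_nonneg hG a _) (by unfold ge; positivity)
  have hbm : ∀ a k, AEMeasurable (fun z => ENNReal.ofReal (b a k z))
      (volume.restrict ((Dp n \ I) ∩ {z | nsq z ≤ 1 / 4})) := by
    intro a k
    obtain ⟨hOo, hFd, -, -, -, -⟩ := hOAO n X ι A f I hS a
    have h1 := contOn_dr (F := fun z => z) dp_open hrs continuousOn_id
      (contOn_cf hSMO hOo hFd k) (fun z hz => hz.1.1)
    have h2 := meas_wt hOAO hG hS (b := fun z => ge (rho t) z (cf (FF A f a) k z))
      (h1.norm.pow 2)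
    exact (h2.aemeasurable.ennreal_ofReal).mono_measure
      (Measure.restrict_mono inter_subset_left le_rfl)
  have he : ∀ z, ENNReal.ofReal (GE A w f (rho t) z) = ∑ a, ∑ k, ENNReal.ofReal (b a k z) := by
    intro z
    unfold GE
    rw [ENNReal.ofReal_sum_of_nonneg]
    · refine Finset.sum_congr rfl fun a _ => ?_
      rw [Finset.mul_sum, ENNReal.ofReal_sum_of_nonneg]
      exact fun k _ => hbn a k z
    · exact fun a _ => mul_nonneg (wt_nonneg hG a _)
        (Finset.sum_nonneg fun k _ => by unfold ge; positivity)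
  simp only [he]
  rw [lintegral_finsetSum' _ (fun a _ => Finset.aemeasurable_fun_sum _ fun k _ => hbm a k)]
  have h3 : ∀ a, ∫⁻ z in (Dp n \ I) ∩ {z | nsq z ≤ 1 / 4}, ∑ k, ENNReal.ofReal (b a k z)
      = ∑ k, ∫⁻ z in (Dp n \ I) ∩ {z | nsq z ≤ 1 / 4}, ENNReal.ofReal (b a k z) := fun a =>
    lintegral_finsetSum' _ (fun k _ => hbm a k)
  simp only [h3]
  rw [ENNReal.ofReal_sum_of_nonneg (fun a _ => Finset.sum_nonneg fun k _ =>
    mul_nonneg (hL0 a) hC0)]
  refine Finset.sum_le_sum fun a _ => ?_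
  rw [ENNReal.ofReal_sum_of_nonneg (fun k _ => mul_nonneg (hL0 a) hC0)]
  refine Finset.sum_le_sum fun k _ => ?_
  obtain ⟨hOo, hFd, -, -, hO2, -⟩ := hOAO n X ι A f I hS a
  calc ∫⁻ z in (Dp n \ I) ∩ {z | nsq z ≤ 1 / 4}, ENNReal.ofReal (b a k z)
      = ∫⁻ z in (Dp n \ I) ∩ {z | nsq z ≤ 1 / 4},
          (Oa A f I a).indicator (fun z => ENNReal.ofReal (b a k z)) z := by
        refine setLIntegral_congr_fun hm fun z hz => ?_
        by_cases hza : z ∈ Oa A f I a
        · rw [indicator_of_mem hza]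
        · rw [indicator_of_notMem hza]
          simp only [hbdef]
          rw [wt_of_notMem (hG.supp a) hz.1 hza, zero_mul, ENNReal.ofReal_zero]
    _ = ∫⁻ z in Oa A f I a ∩ ((Dp n \ I) ∩ {z | nsq z ≤ 1 / 4}), ENNReal.ofReal (b a k z) := by
        rw [lintegral_indicator hOo.measurableSet, Measure.restrict_restrict hOo.measurableSet]
    _ ≤ ∫⁻ z in Oa A f I a ∩ ((Dp n \ I) ∩ {z | nsq z ≤ 1 / 4}),
          ENNReal.ofReal (L a) * ENNReal.ofReal (ge (rho t) z (cf (FF A f a) k z)) := by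
        refine setLIntegral_mono' (hOo.measurableSet.inter hm) fun z hz => ?_
        rw [← ENNReal.ofReal_mul (hL0 a)]
        refine ENNReal.ofReal_le_ofReal ?_
        simp only [hbdef]
        rw [wt_of_mem hz.1]
        refine mul_le_mul_of_nonneg_right ((le_abs_self _).trans (hL a _)) ?_
        unfold ge; positivity
    _ = ENNReal.ofReal (L a) * ∫⁻ z in Oa A f I a ∩ ((Dp n \ I) ∩ {z | nsq z ≤ 1 / 4}),
          ENNReal.ofReal (ge (rho t) z (cf (FF A f a) k z)) := by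
        rw [lintegral_const_mul' _ _ ENNReal.ofReal_ne_top]
    _ ≤ ENNReal.ofReal (L a) * ENNReal.ofReal C := by
        gcongr
        refine le_trans (lintegral_mono_set ?_) (hC t ht a k)
        intro z hz
        exact ⟨hO2 hz.1, hz.2.2⟩
    _ = ENNReal.ofReal (L a * C) := by rw [ENNReal.ofReal_mul (hL0 a)]

/-- the error term tends to zero -/
lemma err_tendsto [T2Space X] (hSMO : T_SMO) (hNSQ : T_NSQ) (hCUT : T_CUT) (hOAO : T_OAO)
    {A : Atl n X ι} {w : ι → V n → ℝ} {f : V n → X} {I : Set (V n)} (hG : Gau A w)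
    (hS : Sing A f I) {g : V n → ℝ} (hg : ContDiff ℝ 2 g) (hg0 : g 0 = 0) {C : ℝ} (hC0 : 0 ≤ C)
    (hC1 : ∀ t : ℝ, 1 ≤ t → ∀ a k,
      ∫⁻ z in (Dp n \ I) ∩ Cb A f a 2 ∩ {z | nsq z ≤ 1 / 4},
      ENNReal.ofReal (ge (rho t) z (cf (FF A f a) k z)) ≤ ENNReal.ofReal C)
    (hC2 : ∀ t : ℝ, 1 ≤ t → ∫⁻ z in (Dp n \ I) ∩ {z | nsq z ≤ 1 / 4},
      ENNReal.ofReal |LL A w f (rho t) z| ≤ ENNReal.ofReal C)
    (hfin : ∫⁻ z in (Dp n \ I) ∩ {z | nsq z ≤ 1 / 4}, ENNReal.ofReal (LL A w f nsq z) < ⊤) :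
    Tendsto (fun t : ℝ => ∫ z in (Dp n \ I) ∩ {z | nsq z < 1 / 4}, RR A w f (rho t) g z)
      atTop (𝓝 0) := by
  obtain ⟨E, hE0, hE⟩ := GE_rho_bound hSMO hCUT hOAO hG hS hC0 hC1
  have hmass := mass_tendsto hSMO hNSQ hOAO hG hS hfin
  -- bound of the derivative of g
  have hcb : IsCompact (Metric.closedBall (0 : V n) 1) := isCompact_closedBall _ _
  obtain ⟨Cg, hCg⟩ := hcb.exists_bound_of_continuousOn (f := fderiv ℝ g)
    (hg.continuous_fderiv (by norm_num)).continuousOn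
  have hCg0 : 0 ≤ Cg := (norm_nonneg _).trans (hCg 0 (Metric.mem_closedBall_self (by norm_num)))
  have hball : ∀ z ∈ Dp n, z ∈ Metric.closedBall (0 : V n) 1 := by
    intro z hz
    rw [mem_closedBall_zero_iff]
    have h1 := ((hNSQ n).2.2.2.2.2 z).1
    have h2 := hz.2
    nlinarith [norm_nonneg z]
  have hgz : ∀ z ∈ Dp n, |g z| ≤ Cg * ‖z‖ := by
    intro z hz
    have h := (convex_closedBall (0 : V n) 1).norm_image_sub_le_of_norm_fderiv_le
      (f := g) (𝕜 := ℝ) (fun x _ => (hg.differentiable (by norm_num)).differentiableAt) hCg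
      (Metric.mem_closedBall_self (by norm_num)) (hball z hz)
    rw [hg0, sub_zero, sub_zero] at h
    exact h
  have hq : MeasurableSet {z : V n | nsq z < 1 / 4} :=
    (isOpen_lt nsq_cont continuous_const).measurableSet
  have hm : MeasurableSet ((Dp n \ I) ∩ {z : V n | nsq z < 1 / 4}) :=
    hS.opn.measurableSet.inter hq
  have hsub : (Dp n \ I) ∩ {z : V n | nsq z < 1 / 4} ⊆ (Dp n \ I) ∩ {z : V n | nsq z ≤ 1 / 4} :=
    fun z hz => ⟨hz.1, (show nsq z ≤ 1 / 4 from le_of_lt (show nsq z < 1 / 4 from hz.2))⟩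
  -- pointwise bound
  have hpt : ∀ t : ℝ, 1 ≤ t → ∀ ε : ℝ, 0 < ε → ∀ z ∈ (Dp n \ I) ∩ {z : V n | nsq z < 1 / 4},
      |RR A w f (rho t) g z| ≤ (Cg * Real.exp (-t)) * |LL A w f (rho t) z| +
        ((2 * ε) * GE A w f (rho t) z +
          (2 * (ε⁻¹ * Cg ^ 2)) * {z : V n | lu z ≤ -t}.indicator (LL A w f nsq) z) := by
    intro t ht ε hε z hz
    have hz0 : 0 < nsq z := hz.1.1.1
    have n1 := GE_nonneg hG f (rho t) z
    have n2 := LL_nsq_nonneg hNSQ hG f z
    by_cases hl : lu z ≤ -t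
    · rw [indicator_of_mem (show z ∈ {z : V n | lu z ≤ -t} from hl)]
      have h1 := abs_CR_le hNSQ hG f (φ := rho t) hε (hCg z (hball z hz.1.1))
      have h2 : |g z| ≤ Cg * Real.exp (-t) := by
        refine (hgz z hz.1.1).trans (mul_le_mul_of_nonneg_left ?_ hCg0)
        have h3 : ‖z‖ ^ 2 ≤ nsq z := ((hNSQ n).2.2.2.2.2 z).1
        have h4 : nsq z = Real.exp (lu z) ^ 2 := by
          unfold lu
          rw [← Real.exp_nat_mul]
          push_cast
          rw [show 2 * (Real.log (nsq z) / 2) = Real.log (nsq z) by ring, Real.exp_log hz0]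
        have h5 : ‖z‖ ≤ Real.exp (lu z) :=
          le_of_sq_le_sq (by rw [← h4]; exact h3) (Real.exp_pos _).le
        exact h5.trans (Real.exp_le_exp.mpr hl)
      unfold RR
      refine (abs_add_le _ _).trans ?_
      rw [abs_mul, abs_mul, abs_of_nonneg (by norm_num : (0:ℝ) ≤ 2)]
      have h6 := mul_le_mul_of_nonneg_right h2 (abs_nonneg (LL A w f (rho t) z))
      linarith
    · have r1 := rho_ev_one hCUT ht hz0 (not_le.mp hl)
      have : RR A w f (rho t) g z = 0 := by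
        unfold RR
        rw [LL_congr_ev A w f r1, LL_const, CR_congr_left A w f r1, CR_const_left]; ring
      rw [this, abs_zero, indicator_of_notMem (show z ∉ {z : V n | lu z ≤ -t} from hl)]
      have := Real.exp_pos (-t)
      positivity
  -- integrated bound
  have hint : ∀ t : ℝ, 1 ≤ t → ∀ ε : ℝ, 0 < ε →
      ∫⁻ z in (Dp n \ I) ∩ {z : V n | nsq z < 1 / 4}, ENNReal.ofReal |RR A w f (rho t) g z|
        ≤ ENNReal.ofReal (Cg * Real.exp (-t) * C) + (ENNReal.ofReal (2 * ε * E) +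
          ENNReal.ofReal (2 * (ε⁻¹ * Cg ^ 2)) * ∫⁻ z in (Dp n \ I) ∩ {z | nsq z ≤ 1 / 4},
          {z : V n | lu z ≤ -t}.indicator (fun z => ENNReal.ofReal (LL A w f nsq z)) z) := by
    intro t ht ε hε
    have hrs2 : ContDiffOn ℝ 2 (rho (n := n) t) (Dp n) :=
      (((hCUT n).2.2.2.1 t ht).1.of_le (by norm_cast)).contDiffOn
    have hm1 : AEMeasurable (fun z => ENNReal.ofReal ((Cg * Real.exp (-t)) *
        |LL A w f (rho t) z|)) (volume.restrict ((Dp n \ I) ∩ {z : V n | nsq z < 1 / 4})) := by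
      have h1 := (meas_LL hSMO hOAO hG hS hrs2).aemeasurable.mono_measure
        (Measure.restrict_mono (inter_subset_left (t := {z : V n | nsq z < 1 / 4})) le_rfl)
      exact (h1.abs.const_mul _).ennreal_ofReal
    have hm2 : AEMeasurable (fun z => ENNReal.ofReal ((2 * ε) * GE A w f (rho t) z))
        (volume.restrict ((Dp n \ I) ∩ {z : V n | nsq z < 1 / 4})) := by
      have h1 := (meas_GE hSMO hOAO hG hS (hrs2.of_le (by norm_num))).aemeasurable.mono_measure
        (Measure.restrict_mono (inter_subset_left (t := {z : V n | nsq z < 1 / 4})) le_rfl)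
      exact (h1.const_mul _).ennreal_ofReal
    have hexp := Real.exp_pos (-t)
    calc ∫⁻ z in (Dp n \ I) ∩ {z : V n | nsq z < 1 / 4}, ENNReal.ofReal |RR A w f (rho t) g z|
        ≤ ∫⁻ z in (Dp n \ I) ∩ {z : V n | nsq z < 1 / 4},
            (ENNReal.ofReal ((Cg * Real.exp (-t)) * |LL A w f (rho t) z|) +
              (ENNReal.ofReal ((2 * ε) * GE A w f (rho t) z) +
                ENNReal.ofReal (2 * (ε⁻¹ * Cg ^ 2)) * {z : V n | lu z ≤ -t}.indicator
                  (fun z => ENNReal.ofReal (LL A w f nsq z)) z)) := by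
          refine setLIntegral_mono' hm fun z hz => ?_
          refine (ENNReal.ofReal_le_ofReal (hpt t ht ε hε z hz)).trans ?_
          refine ENNReal.ofReal_add_le.trans ?_
          gcongr
          refine ENNReal.ofReal_add_le.trans ?_
          gcongr
          by_cases hl : z ∈ {z : V n | lu z ≤ -t}
          · rw [indicator_of_mem hl, indicator_of_mem hl,
              ENNReal.ofReal_mul (by positivity)]
          · rw [indicator_of_notMem hl, indicator_of_notMem hl]; simp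
      _ = (∫⁻ z in (Dp n \ I) ∩ {z : V n | nsq z < 1 / 4},
            ENNReal.ofReal ((Cg * Real.exp (-t)) * |LL A w f (rho t) z|)) +
          ((∫⁻ z in (Dp n \ I) ∩ {z : V n | nsq z < 1 / 4},
              ENNReal.ofReal ((2 * ε) * GE A w f (rho t) z)) +
            ENNReal.ofReal (2 * (ε⁻¹ * Cg ^ 2)) *
              ∫⁻ z in (Dp n \ I) ∩ {z : V n | nsq z < 1 / 4}, {z : V n | lu z ≤ -t}.indicator
                  (fun z => ENNReal.ofReal (LL A w f nsq z)) z) := by
          rw [lintegral_add_left' hm1, lintegral_add_left' hm2,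
            lintegral_const_mul' _ _ ENNReal.ofReal_ne_top]
      _ ≤ _ := by
          refine add_le_add ?_ (add_le_add ?_ ?_)
          · calc ∫⁻ z in (Dp n \ I) ∩ {z : V n | nsq z < 1 / 4},
                  ENNReal.ofReal ((Cg * Real.exp (-t)) * |LL A w f (rho t) z|)
                = ENNReal.ofReal (Cg * Real.exp (-t)) *
                  ∫⁻ z in (Dp n \ I) ∩ {z : V n | nsq z < 1 / 4},
                    ENNReal.ofReal |LL A w f (rho t) z| := by
                  rw [← lintegral_const_mul' _ _ ENNReal.ofReal_ne_top]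
                  refine lintegral_congr fun z => ?_
                  rw [ENNReal.ofReal_mul (by positivity)]
              _ ≤ ENNReal.ofReal (Cg * Real.exp (-t)) * ENNReal.ofReal C := by
                  gcongr
                  exact (lintegral_mono_set hsub).trans (hC2 t ht)
              _ = _ := by rw [← ENNReal.ofReal_mul (by positivity)]
          · calc ∫⁻ z in (Dp n \ I) ∩ {z : V n | nsq z < 1 / 4},
                  ENNReal.ofReal ((2 * ε) * GE A w f (rho t) z)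
                = ENNReal.ofReal (2 * ε) *
                  ∫⁻ z in (Dp n \ I) ∩ {z : V n | nsq z < 1 / 4},
                    ENNReal.ofReal (GE A w f (rho t) z) := by
                  rw [← lintegral_const_mul' _ _ ENNReal.ofReal_ne_top]
                  refine lintegral_congr fun z => ?_
                  rw [ENNReal.ofReal_mul (by positivity)]
              _ ≤ ENNReal.ofReal (2 * ε) * ENNReal.ofReal E := by
                  gcongr
                  exact (lintegral_mono_set hsub).trans (hE t ht)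
              _ = _ := by rw [← ENNReal.ofReal_mul (by positivity)]
          · gcongr
  -- the limit
  rw [Metric.tendsto_atTop]
  intro δ hδ
  set ε := δ / (2 * (2 + 2 * E)) with hεdef
  have hε : 0 < ε := by positivity
  have hl1 : Tendsto (fun t : ℝ => Cg * Real.exp (-t) * C) atTop (𝓝 0) := by
    have h1 : Tendsto (fun t : ℝ => Real.exp (-t)) atTop (𝓝 0) :=
      Real.tendsto_exp_neg_atTop_nhds_zero
    have h2 := (h1.const_mul Cg).mul_const C
    simpa using h2
  have hl2 : Tendsto (fun t : ℝ => ENNReal.ofReal (2 * (ε⁻¹ * Cg ^ 2)) *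
      ∫⁻ z in (Dp n \ I) ∩ {z | nsq z ≤ 1 / 4},
        {z : V n | lu z ≤ -t}.indicator (fun z => ENNReal.ofReal (LL A w f nsq z)) z)
      atTop (𝓝 0) := by
    have h2 := ENNReal.Tendsto.const_mul (a := ENNReal.ofReal (2 * (ε⁻¹ * Cg ^ 2))) hmass
      (Or.inr ENNReal.ofReal_ne_top)
    simpa using h2
  have e1 : ∀ᶠ t : ℝ in atTop, Cg * Real.exp (-t) * C < ε := hl1.eventually_lt_const hε
  have e2 := hl2.eventually_lt_const (show (0 : ℝ≥0∞) < ENNReal.ofReal ε from
    ENNReal.ofReal_pos.mpr hε)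
  obtain ⟨N, hN⟩ := ((e1.and e2).and (eventually_ge_atTop 1)).exists_forall_of_atTop
  refine ⟨N, fun t ht => ?_⟩
  obtain ⟨⟨f1, f2⟩, f3⟩ := hN t ht
  rw [dist_zero_right]
  have h1 : ‖∫ z in (Dp n \ I) ∩ {z | nsq z < 1 / 4}, RR A w f (rho t) g z‖
      ≤ ENNReal.toReal (∫⁻ z in (Dp n \ I) ∩ {z : V n | nsq z < 1 / 4},
        ENNReal.ofReal ‖RR A w f (rho t) g z‖) := norm_integral_le_lintegral_norm _
  have h2 : ∫⁻ z in (Dp n \ I) ∩ {z : V n | nsq z < 1 / 4},
        ENNReal.ofReal ‖RR A w f (rho t) g z‖ ≤ ENNReal.ofReal (ε + (2 * ε * E + ε)) := by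
    refine (hint t f3 ε hε).trans ?_
    rw [ENNReal.ofReal_add hε.le (by positivity), ENNReal.ofReal_add (by positivity) hε.le]
    refine add_le_add (ENNReal.ofReal_le_ofReal f1.le) (add_le_add le_rfl f2.le)
  have h3 := ENNReal.toReal_le_of_le_ofReal (by positivity) h2
  refine (h1.trans h3).trans_lt ?_
  have h4 : ε + (2 * ε * E + ε) = δ / 2 := by
    rw [hεdef]
    have : (2 + 2 * E) ≠ 0 := by positivity
    field_simp
    ring
  rw [h4]; linarith

/-- `chi * LL g` is integrable -/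
lemma int_chi_LL [T2Space X] (hSMO : T_SMO) (hPRD : T_PRD) (hNSQ : T_NSQ) (hCUT : T_CUT)
    (hOAO : T_OAO) (hSTA : T_STA) (hADJ : T_ADJ)
    {A : Atl n X ι} {w : ι → V n → ℝ} {f : V n → X} {I : Set (V n)} (hG : Gau A w)
    (hS : Sing A f I) {g : V n → ℝ} (hg : ContDiff ℝ 2 g)
    (hfin : ∫⁻ z in (Dp n \ I) ∩ {z | nsq z ≤ 1 / 4}, ENNReal.ofReal (LL A w f nsq z) < ⊤) :
    IntegrableOn (fun z => chi z * LL A w f g z) (Dp n \ I) := by
  obtain ⟨hchi, -, hchi01, hrho, -⟩ := hCUT n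
  have h3 := hrho 1 le_rfl
  have hφ : ContDiff ℝ 2 (fun z : V n => chi z * rho 1 z) :=
    (hchi.mul h3.1).of_le (by norm_cast)
  obtain ⟨b1, -, -, -, -⟩ := basic hPRD hSTA hADJ hG hS hφ h3.2.2.1 h3.2.2.2 hg
  have hq : MeasurableSet {z : V n | nsq z ≤ 1 / 4} :=
    (isClosed_le nsq_cont continuous_const).measurableSet
  have hm : MeasurableSet ((Dp n \ I) ∩ {z : V n | nsq z ≤ 1 / 4}) :=
    hS.opn.measurableSet.inter hq
  -- second derivative bound on the closed ball
  have hcb : IsCompact (Metric.closedBall (0 : V n) 1) := isCompact_closedBall _ _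
  obtain ⟨C, hC⟩ := hcb.exists_bound_of_continuousOn (f := fderiv ℝ (fderiv ℝ g))
    ((contOn_fderiv2 isOpen_univ hg.contDiffOn).mono (subset_univ _))
  have hC0 : 0 ≤ C := (norm_nonneg _).trans (hC 0 (Metric.mem_closedBall_self (by norm_num)))
  have hball : ∀ z ∈ Dp n, z ∈ Metric.closedBall (0 : V n) 1 := by
    intro z hz
    rw [mem_closedBall_zero_iff]
    have h1 := ((hNSQ n).2.2.2.2.2 z).1
    have h2 := hz.2
    nlinarith [norm_nonneg z]
  have hLL : ∀ z ∈ Dp n, |LL A w f g z| ≤ C * LL A w f nsq z := by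
    intro z hz
    rw [LL_nsq hNSQ]
    unfold LL
    refine (Finset.abs_sum_le_sum_abs _ _).trans ?_
    rw [Finset.mul_sum]
    refine Finset.sum_le_sum fun a _ => ?_
    rw [abs_mul, abs_of_nonneg (wt_nonneg hG a _)]
    have h1 : |∑ k, lev g z (cf (FF A f a) k z)| ≤ C * ∑ k, nsq (cf (FF A f a) k z) := by
      refine (Finset.abs_sum_le_sum_abs _ _).trans ?_
      rw [Finset.mul_sum]
      refine Finset.sum_le_sum fun k _ => ?_
      refine (abs_lev_le hg.contDiffAt _).trans ?_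
      have := ((hNSQ n).2.2.2.2.2 (cf (FF A f a) k z)).1
      exact mul_le_mul (hC z (hball z hz)) this (by positivity) hC0
    calc Wt A w a (f z) * |∑ k, lev g z (cf (FF A f a) k z)|
        ≤ Wt A w a (f z) * (C * ∑ k, nsq (cf (FF A f a) k z)) :=
          mul_le_mul_of_nonneg_left h1 (wt_nonneg hG a _)
      _ = _ := by ring
  have hmeas := meas_LL hSMO hOAO hG hS hg.contDiffOn
  have h5 : IntegrableOn (fun z => chi z * (1 - rho 1 z) * LL A w f g z) (Dp n \ I) := by
    have h6 : IntegrableOn (fun z => chi z * (1 - rho 1 z) * LL A w f g z)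
        ((Dp n \ I) ∩ {z | nsq z ≤ 1 / 4}) := by
      have hcont : Continuous (fun z : V n => chi z * (1 - rho 1 z)) :=
        hchi.continuous.mul (continuous_const.sub h3.1.continuous)
      refine ⟨(hcont.aestronglyMeasurable.mul hmeas).mono_measure
        (Measure.restrict_mono inter_subset_left le_rfl), ?_⟩
      rw [hasFiniteIntegral_iff_enorm]
      calc ∫⁻ z in (Dp n \ I) ∩ {z | nsq z ≤ 1 / 4}, ‖chi z * (1 - rho 1 z) * LL A w f g z‖ₑ
          ≤ ∫⁻ z in (Dp n \ I) ∩ {z | nsq z ≤ 1 / 4},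
              ENNReal.ofReal C * ENNReal.ofReal (LL A w f nsq z) := by
            refine setLIntegral_mono' hm fun z hz => ?_
            rw [← ofReal_norm, ← ENNReal.ofReal_mul hC0]
            refine ENNReal.ofReal_le_ofReal ?_
            rw [norm_mul, norm_mul, Real.norm_eq_abs, Real.norm_eq_abs, Real.norm_eq_abs]
            have c1 : |chi z| ≤ 1 := by
              rw [abs_of_nonneg (hchi01 z).1]; exact (hchi01 z).2.1
            have c2 : |1 - rho 1 z| ≤ 1 := by
              have := h3.2.1 z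
              rw [abs_of_nonneg (by linarith [this.2.1])]
              linarith [this.1]
            have c3 := hLL z hz.1.1
            calc |chi z| * |1 - rho 1 z| * |LL A w f g z| ≤ 1 * 1 * (C * LL A w f nsq z) := by
                  gcongr
              _ = C * LL A w f nsq z := by ring
        _ = ENNReal.ofReal C * ∫⁻ z in (Dp n \ I) ∩ {z | nsq z ≤ 1 / 4},
              ENNReal.ofReal (LL A w f nsq z) := by
            rw [lintegral_const_mul' _ _ ENNReal.ofReal_ne_top]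
        _ < ⊤ := ENNReal.mul_lt_top ENNReal.ofReal_lt_top hfin
    refine h6.of_forall_sdiff_eq_zero hS.opn.measurableSet ?_
    intro z hz
    have hz1 : z ∈ Dp n \ I := hz.1
    have hz2 : ¬ nsq z ≤ 1 / 4 := fun h => hz.2 ⟨hz1, h⟩
    have r := (rho_ev_one hCUT le_rfl hz1.1.1 (lu_gt_of (not_le.mp hz2).le)).eq_of_nhds
    rw [r]; ring
  refine (b1.add h5).congr_fun (fun z _ => ?_) hS.opn.measurableSet
  simp only [Pi.add_apply]
  ring

/-- VG module F1 -/
theorem f1 (hSMO : T_SMO) (hPRD : T_PRD) (hNSQ : T_NSQ) (hCUT : T_CUT) (hOAO : T_OAO)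
    (hSTA : T_STA) (hADJ : T_ADJ) (hCST : T_CST) : T_F1 := by
  intro n X _ _ _ ι _ A w f I hG hS g hg
  obtain ⟨C, hC, hfin⟩ := hCST n X ι A w f I hG hS
  -- some chart and some index
  obtain ⟨a0, -⟩ := A.cover (f 0)
  have hn : 0 < n := by have := hS.two; omega
  have k0 : Fin n := ⟨0, hn⟩
  have hC1 : ∀ t : ℝ, 1 ≤ t → ∀ a k,
      ∫⁻ z in (Dp n \ I) ∩ Cb A f a 2 ∩ {z | nsq z ≤ 1 / 4},
      ENNReal.ofReal (ge (rho t) z (cf (FF A f a) k z)) ≤ ENNReal.ofReal |C| := fun t ht a k =>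
    ((hC t ht a k).2.1).trans (ENNReal.ofReal_le_ofReal (le_abs_self C))
  have hC2 : ∀ t : ℝ, 1 ≤ t → ∫⁻ z in (Dp n \ I) ∩ {z | nsq z ≤ 1 / 4},
      ENNReal.ofReal |LL A w f (rho t) z| ≤ ENNReal.ofReal |C| := fun t ht =>
    ((hC t ht a0 k0).2.2).trans (ENNReal.ofReal_le_ofReal (le_abs_self C))
  have hm : MeasurableSet (Dp n \ I) := hS.opn.measurableSet
  obtain ⟨hchi, -, hchi01, hrho, -⟩ := hCUT n
  have i1 := int_chi_LL hSMO hPRD hNSQ hCUT hOAO hSTA hADJ hG hS hg hfin
  obtain ⟨-, i2, -⟩ := chi_id hPRD hCUT hSTA hADJ hG hS hg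
  refine ⟨i1, i2, ?_⟩
  set c := g 0 with hc
  set g' : V n → ℝ := fun z => g z - c with hg'def
  have hg' : ContDiff ℝ 2 g' := hg.sub contDiff_const
  have hg'0 : g' 0 = 0 := by simp [hg'def, hc]
  have herr := err_tendsto hSMO hNSQ hCUT hOAO hG hS hg' hg'0 (abs_nonneg C) hC1 hC2 hfin
  have hid : ∀ t : ℝ, 1 ≤ t → ∫ z in Dp n \ I, (chi z * rho t z) * LL A w f g z
      = (∫ z in Dp n \ I, g' z * LLs A w f chi z)
        - ∫ z in (Dp n \ I) ∩ {z | nsq z < 1 / 4}, RR A w f (rho t) g' z := by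
    intro t ht
    rw [← main_id hPRD hCUT hSTA hADJ hG hS hg' ht]
    simp only [hg'def, LL_sub_const]
  have hlim1 : Tendsto (fun t : ℝ => ∫ z in Dp n \ I, (chi z * rho t z) * LL A w f g z) atTop
      (𝓝 ((∫ z in Dp n \ I, g' z * LLs A w f chi z) - 0)) := by
    refine (tendsto_const_nhds.sub herr).congr' ?_
    filter_upwards [eventually_ge_atTop 1] with t ht
    rw [hid t ht]
  have hlim2 : Tendsto (fun t : ℝ => ∫ z in Dp n \ I, (chi z * rho t z) * LL A w f g z) atTop
      (𝓝 (∫ z in Dp n \ I, chi z * LL A w f g z)) := by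
    refine tendsto_integral_filter_of_dominated_convergence
      (fun z => ‖chi z * LL A w f g z‖) ?_ ?_ i1.norm ?_
    · filter_upwards [eventually_ge_atTop 1] with t ht
      exact (hchi.continuous.mul (hrho t ht).1.continuous).aestronglyMeasurable.mul
        (meas_LL hSMO hOAO hG hS hg.contDiffOn)
    · filter_upwards [eventually_ge_atTop 1] with t ht
      refine Eventually.of_forall fun z => ?_
      rw [norm_mul, norm_mul, norm_mul]
      have h1 : ‖rho t z‖ ≤ 1 := by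
        have := (hrho t ht).2.1 z
        rw [Real.norm_eq_abs, abs_of_nonneg this.1]; exact this.2.1
      calc ‖chi z‖ * ‖rho t z‖ * ‖LL A w f g z‖ ≤ ‖chi z‖ * 1 * ‖LL A w f g z‖ := by gcongr
        _ = ‖chi z‖ * ‖LL A w f g z‖ := by ring
    · refine (ae_restrict_iff' hm).mpr (Eventually.of_forall fun z hz => ?_)
      refine tendsto_const_nhds.congr' ?_
      filter_upwards [eventually_gt_atTop (-lu z), eventually_ge_atTop 1] with t ht ht1
      rw [((hrho t ht1).2.1 z).2.2.1 hz.1.1 (by linarith), mul_one]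
  have heq := tendsto_nhds_unique hlim2 hlim1
  rw [heq, sub_zero]
  -- expand g'
  obtain ⟨j1, j2, j3⟩ := chi_id hPRD hCUT hSTA hADJ hG hS (g := fun _ => (1:ℝ)) contDiff_const
  have hflux : ∫ z in Dp n \ I, LLs A w f chi z = flux A w f I := by
    have e1 : ∀ z, RR A w f chi (fun _ => (1:ℝ)) z = LL A w f chi z := by
      intro z
      unfold RR
      rw [CR_const_right]; ring
    simp only [one_mul, e1] at j3
    rw [j3]; rfl
  have j2' : IntegrableOn (fun z => LLs A w f chi z) (Dp n \ I) := by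
    simpa only [one_mul] using j2
  have e2 : ∫ z in Dp n \ I, g' z * LLs A w f chi z
      = (∫ z in Dp n \ I, g z * LLs A w f chi z) - c * ∫ z in Dp n \ I, LLs A w f chi z := by
    rw [← integral_const_mul, ← integral_sub i2 (j2'.const_mul c)]
    refine integral_congr_ae (Eventually.of_forall fun z => ?_)
    simp only [hg'def]
    ring
  rw [e2, hflux]
  ring

end Pool.Agent.H42.VG
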