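import Mathlib
import Pool.Agent.H95.VG.Targets3
import Pool.Agent.H42.VG.Basic

/-!
# VG: module NHA (helper42)
-/

open MeasureTheory Set Filter Topology
open scoped ENNReal NNReal ContDiff ComplexConjugate

namespace Pool.Agent.H42.VG

open Pool.Agent.H95.VG

variable {n : ℕ}

lemma ev_zero {p : V n → ℝ} (hps : ∀ y, p y ≠ 0 → y ∈ Metric.closedBall (0 : V n) (3 / 2))
    {y : V n} (hy : y ∉ Metric.closedBall (0 : V n) (3 / 2)) : ∀ᶠ y' in 𝓝 y, p y' = 0 := by
  have h1 : (Metric.closedBall (0 : V n) (3 / 2))ᶜ ∈ 𝓝 y :=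
    Metric.isClosed_closedBall.isOpen_compl.mem_nhds hy
  filter_upwards [h1] with y' hy'
  by_contra hne
  exact hy' (hps _ hne)

lemma q_smooth {p h : V n → ℝ} {τ : ℝ → ℝ} (hp : ContDiff ℝ ∞ p)
    (hps : ∀ y, p y ≠ 0 → y ∈ Metric.closedBall (0 : V n) (3 / 2))
    (hh : ContDiffOn ℝ ∞ h (Metric.ball (0 : V n) 2)) (hτ : ContDiff ℝ 2 τ) (s : ℝ) :
    ContDiff ℝ 2 (fun y => p y * τ (h y + s)) := by
  rw [contDiff_iff_contDiffAt]
  intro y
  by_cases hy : y ∈ Metric.closedBall (0 : V n) (3 / 2)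
  · have hy2 : y ∈ Metric.ball (0 : V n) 2 := Metric.closedBall_subset_ball (by norm_num) hy
    have h1 : ContDiffAt ℝ 2 h y :=
      ((hh.contDiffAt (Metric.isOpen_ball.mem_nhds hy2)).of_le (by norm_cast))
    have h2 : ContDiffAt ℝ 2 (fun y => τ (h y + s)) y :=
      hτ.contDiffAt.comp y (h1.add contDiffAt_const)
    have h3 : ContDiffAt ℝ 2 p y := hp.contDiffAt.of_le (by norm_cast)
    exact h3.mul h2
  · have h1 := ev_zero hps hy
    have h2 : (fun y => p y * τ (h y + s)) =ᶠ[𝓝 y] fun _ => 0 := by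
      filter_upwards [h1] with y' hy'
      rw [hy', zero_mul]
    exact contDiffAt_const.congr_of_eventuallyEq h2

lemma hasFD_q {p h : V n → ℝ} {τ : ℝ → ℝ} (hp : ContDiff ℝ ∞ p)
    (hh : ContDiffOn ℝ ∞ h (Metric.ball (0 : V n) 2)) (hτ : ContDiff ℝ 2 τ) (s : ℝ)
    {y : V n} (hy : y ∈ Metric.ball (0 : V n) 2) :
    fderiv ℝ (fun y => p y * τ (h y + s)) y
      = τ (h y + s) • fderiv ℝ p y + (p y * deriv τ (h y + s)) • fderiv ℝ h y := by
  have h1 : DifferentiableAt ℝ h y :=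
    (hh.contDiffAt (Metric.isOpen_ball.mem_nhds hy)).differentiableAt (by simp)
  have h2 : HasFDerivAt (fun y => h y + s) (fderiv ℝ h y) y := h1.hasFDerivAt.add_const s
  have h3 : HasDerivAt τ (deriv τ (h y + s)) (h y + s) :=
    (hτ.differentiable (by norm_num)).differentiableAt.hasDerivAt
  have h4 : HasFDerivAt (fun y => τ (h y + s)) (deriv τ (h y + s) • fderiv ℝ h y) y :=
    h3.comp_hasFDerivAt y h2
  have h5 : HasFDerivAt p (fderiv ℝ p y) y := (hp.differentiable (by simp)).differentiableAt.hasFDerivAt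
  have h6 : HasFDerivAt (fun y => p y * τ (h y + s))
    (p y • (deriv τ (h y + s) • fderiv ℝ h y) + τ (h y + s) • fderiv ℝ p y) y := h5.mul h4
  rw [h6.fderiv, add_comm, smul_smul]

lemma hasFD2_q {p h : V n → ℝ} {τ : ℝ → ℝ} (hp : ContDiff ℝ ∞ p)
    (hh : ContDiffOn ℝ ∞ h (Metric.ball (0 : V n) 2)) (hτ : ContDiff ℝ 2 τ) (s : ℝ)
    {y : V n} (hy : y ∈ Metric.ball (0 : V n) 2) :
    fderiv ℝ (fderiv ℝ (fun y => p y * τ (h y + s))) y
      = (τ (h y + s) • fderiv ℝ (fderiv ℝ p) y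
        + (deriv τ (h y + s) • fderiv ℝ h y).smulRight (fderiv ℝ p y))
        + ((p y * deriv τ (h y + s)) • fderiv ℝ (fderiv ℝ h) y
        + (p y • (deriv (deriv τ) (h y + s) • fderiv ℝ h y)
          + deriv τ (h y + s) • fderiv ℝ p y).smulRight (fderiv ℝ h y)) := by
  have hn := Metric.isOpen_ball.mem_nhds hy
  have h0 : fderiv ℝ (fun y => p y * τ (h y + s)) =ᶠ[𝓝 y] fun y =>
      τ (h y + s) • fderiv ℝ p y + (p y * deriv τ (h y + s)) • fderiv ℝ h y := by
    filter_upwards [hn] with y' hy'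
    exact hasFD_q hp hh hτ s hy'
  rw [h0.fderiv_eq]
  have hc : ContDiffAt ℝ ∞ h y := hh.contDiffAt hn
  have h1 : DifferentiableAt ℝ h y := hc.differentiableAt (by simp)
  have h2 : HasFDerivAt (fun y => h y + s) (fderiv ℝ h y) y := h1.hasFDerivAt.add_const s
  have h3 : HasDerivAt τ (deriv τ (h y + s)) (h y + s) :=
    (hτ.differentiable (by norm_num)).differentiableAt.hasDerivAt
  have h4 : HasFDerivAt (fun y => τ (h y + s)) (deriv τ (h y + s) • fderiv ℝ h y) y :=
    h3.comp_hasFDerivAt y h2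
  have hτ' : ContDiff ℝ 1 (deriv τ) := by
    have : ContDiff ℝ (1 + 1) τ := by simpa [one_add_one_eq_two] using hτ
    exact (contDiff_succ_iff_deriv.mp this).2.2
  have h3' : HasDerivAt (deriv τ) (deriv (deriv τ) (h y + s)) (h y + s) :=
    (hτ'.differentiable (by norm_num)).differentiableAt.hasDerivAt
  have h4' : HasFDerivAt (fun y => deriv τ (h y + s)) (deriv (deriv τ) (h y + s) • fderiv ℝ h y) y :=
    (HasDerivAt.comp_hasFDerivAt (h₂ := deriv τ) y h3' h2)
  have h5 : HasFDerivAt p (fderiv ℝ p y) y := (hp.differentiable (by simp)).differentiableAt.hasFDerivAt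
  have h6 : HasFDerivAt (fderiv ℝ p) (fderiv ℝ (fderiv ℝ p) y) y := by
    have : ContDiff ℝ 1 (fderiv ℝ p) := hp.fderiv_right (m := 1) (by norm_cast)
    exact (this.differentiable (by norm_num)).differentiableAt.hasFDerivAt
  have h7 : HasFDerivAt (fderiv ℝ h) (fderiv ℝ (fderiv ℝ h) y) y := by
    have : ContDiffAt ℝ 1 (fderiv ℝ h) y := hc.fderiv_right (m := 1) (by norm_cast)
    exact (this.differentiableAt (by norm_num)).hasFDerivAt
  exact ((h4.smul h6).add ((h5.mul h4').smul h7)).fderiv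

lemma norm_bound2 {E : Type*} [NormedAddCommGroup E] [NormedSpace ℝ E] (a b : ℝ)
    (D2p D2h : E →L[ℝ] (E →L[ℝ] ℝ)) (u v Dp Dh : E →L[ℝ] ℝ) :
    ‖(a • D2p + u.smulRight Dp) + (b • D2h + v.smulRight Dh)‖
      ≤ (|a| * ‖D2p‖ + ‖u‖ * ‖Dp‖) + (|b| * ‖D2h‖ + ‖v‖ * ‖Dh‖) := by
  refine ContinuousLinearMap.opNorm_le_bound _ (by positivity) fun x => ?_
  have h0 : ((a • D2p + u.smulRight Dp) + (b • D2h + v.smulRight Dh)) x
      = (a • D2p x + u x • Dp) + (b • D2h x + v x • Dh) := rfl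
  rw [h0]
  have h1 : ‖a • D2p x‖ ≤ |a| * (‖D2p‖ * ‖x‖) := by
    rw [norm_smul, Real.norm_eq_abs]
    exact mul_le_mul_of_nonneg_left (D2p.le_opNorm x) (abs_nonneg _)
  have h2 : ‖b • D2h x‖ ≤ |b| * (‖D2h‖ * ‖x‖) := by
    rw [norm_smul, Real.norm_eq_abs]
    exact mul_le_mul_of_nonneg_left (D2h.le_opNorm x) (abs_nonneg _)
  have h3 : ‖u x • Dp‖ ≤ (‖u‖ * ‖x‖) * ‖Dp‖ := by
    rw [norm_smul]
    exact mul_le_mul_of_nonneg_right (u.le_opNorm x) (norm_nonneg _)
  have h4 : ‖v x • Dh‖ ≤ (‖v‖ * ‖x‖) * ‖Dh‖ := by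
    rw [norm_smul]
    exact mul_le_mul_of_nonneg_right (v.le_opNorm x) (norm_nonneg _)
  have h5 := norm_add_le (a • D2p x + u x • Dp) (b • D2h x + v x • Dh)
  have h6 := norm_add_le (a • D2p x) (u x • Dp)
  have h7 := norm_add_le (b • D2h x) (v x • Dh)
  nlinarith

lemma norm_zero2 {E : Type*} [NormedAddCommGroup E] [NormedSpace ℝ E] :
    ‖(0 : E →L[ℝ] (E →L[ℝ] ℝ))‖ = 0 := ContinuousLinearMap.opNorm_zero

lemma q_bounds {p h : V n → ℝ} {τ : ℝ → ℝ} (hp : ContDiff ℝ ∞ p)
    (hps : ∀ y, p y ≠ 0 → y ∈ Metric.closedBall (0 : V n) (3 / 2))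
    (hh : ContDiffOn ℝ ∞ h (Metric.ball (0 : V n) 2)) (hτ : ContDiff ℝ 2 τ) {B B' : ℝ}
    (hB : ∀ s, |τ s| ≤ B) (hB' : ∀ s, |deriv τ s| ≤ B' ∧ |deriv (deriv τ) s| ≤ B') :
    ∃ C : ℝ, ∀ y s, |p y * τ (h y + s)| ≤ C ∧ ‖fderiv ℝ (fun y => p y * τ (h y + s)) y‖ ≤ C ∧
      ‖fderiv ℝ (fderiv ℝ (fun y => p y * τ (h y + s))) y‖ ≤ C := by
  have hcb : IsCompact (Metric.closedBall (0 : V n) (3 / 2)) := isCompact_closedBall _ _
  have hsub : Metric.closedBall (0 : V n) (3 / 2) ⊆ Metric.ball (0 : V n) 2 :=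
    Metric.closedBall_subset_ball (by norm_num)
  have hh2 : ContDiffOn ℝ 2 h (Metric.ball (0 : V n) 2) := hh.of_le (by norm_cast)
  have hp2 : ContDiff ℝ 2 p := hp.of_le (by norm_cast)
  obtain ⟨P0, hP0⟩ := hcb.exists_bound_of_continuousOn (f := p) hp.continuous.continuousOn
  obtain ⟨P1, hP1⟩ := hcb.exists_bound_of_continuousOn (f := fderiv ℝ p)
    (hp.continuous_fderiv (by simp)).continuousOn
  obtain ⟨P2, hP2⟩ := hcb.exists_bound_of_continuousOn (f := fderiv ℝ (fderiv ℝ p))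
    ((contOn_fderiv2 isOpen_univ hp2.contDiffOn).mono (subset_univ _))
  obtain ⟨H1, hH1⟩ := hcb.exists_bound_of_continuousOn (f := fderiv ℝ h)
    ((contOn_fderiv1 Metric.isOpen_ball (hh.of_le (by norm_cast))).mono hsub)
  obtain ⟨H2, hH2⟩ := hcb.exists_bound_of_continuousOn (f := fderiv ℝ (fderiv ℝ h))
    ((contOn_fderiv2 Metric.isOpen_ball hh2).mono hsub)
  have hy0 : (0 : V n) ∈ Metric.closedBall (0 : V n) (3 / 2) :=
    Metric.mem_closedBall_self (by norm_num)
  have p0 : 0 ≤ P0 := (norm_nonneg _).trans (hP0 0 hy0)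
  have p1 : 0 ≤ P1 := (norm_nonneg _).trans (hP1 0 hy0)
  have p2 : 0 ≤ P2 := (norm_nonneg _).trans (hP2 0 hy0)
  have q1 : 0 ≤ H1 := (norm_nonneg _).trans (hH1 0 hy0)
  have q2 : 0 ≤ H2 := (norm_nonneg _).trans (hH2 0 hy0)
  have b0 : 0 ≤ B := (abs_nonneg _).trans (hB 0)
  have b1 : 0 ≤ B' := (abs_nonneg _).trans (hB' 0).1
  set C1 := P0 * B with hC1
  set C2 := B * P1 + P0 * B' * H1 with hC2
  set C3 := (B * P2 + B' * H1 * P1) + (P0 * B' * H2 + (P0 * (B' * H1) + B' * P1) * H1) with hC3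
  have c1 : 0 ≤ C1 := by positivity
  have c2 : 0 ≤ C2 := by positivity
  have c3 : 0 ≤ C3 := by positivity
  refine ⟨C1 + C2 + C3, fun y s => ?_⟩
  by_cases hy : y ∈ Metric.closedBall (0 : V n) (3 / 2)
  · have hy2 := hsub hy
    have e0 := hP0 y hy
    have e1 := hP1 y hy
    have e2 := hP2 y hy
    have f1 := hH1 y hy
    have f2 := hH2 y hy
    have g0 : ‖τ (h y + s)‖ ≤ B := hB _
    have g1 : ‖deriv τ (h y + s)‖ ≤ B' := (hB' _).1
    have g2 : ‖deriv (deriv τ) (h y + s)‖ ≤ B' := (hB' _).2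
    refine ⟨?_, ?_, ?_⟩
    · rw [abs_mul]
      have : |p y| * |τ (h y + s)| ≤ P0 * B := by
        have e0' : |p y| ≤ P0 := e0
        have g0' : |τ (h y + s)| ≤ B := g0
        gcongr
      linarith
    · rw [hasFD_q hp hh hτ s hy2]
      have : ‖τ (h y + s) • fderiv ℝ p y + (p y * deriv τ (h y + s)) • fderiv ℝ h y‖ ≤ C2 := by
        refine (norm_add_le _ _).trans ?_
        rw [norm_smul, norm_smul, norm_mul, hC2]
        gcongr
      linarith
    · rw [hasFD2_q hp hh hτ s hy2]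
      refine le_trans ?_ (by linarith : C3 ≤ C1 + C2 + C3)
      refine (norm_bound2 (E := V n) _ _ _ _ _ _ _ _).trans ?_
      rw [hC3]
      refine add_le_add ?_ ?_
      · rw [norm_smul]
        have g0' : |τ (h y + s)| ≤ B := g0
        gcongr
      · rw [abs_mul]
        have e0' : |p y| ≤ P0 := e0
        have g1' : |deriv τ (h y + s)| ≤ B' := g1
        have : ‖p y • (deriv (deriv τ) (h y + s) • fderiv ℝ h y)
          + deriv τ (h y + s) • fderiv ℝ p y‖ ≤ P0 * (B' * H1) + B' * P1 := by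
          refine (norm_add_le _ _).trans ?_
          rw [norm_smul, norm_smul, norm_smul]
          gcongr
        gcongr
  · have h1 := ev_zero hps hy
    have h2 : (fun y => p y * τ (h y + s)) =ᶠ[𝓝 y] fun _ => 0 := by
      filter_upwards [h1] with y' hy'
      rw [hy', zero_mul]
    have h3 : fderiv ℝ (fun y => p y * τ (h y + s)) =ᶠ[𝓝 y] fun _ => 0 := by
      refine h2.fderiv.trans ?_
      filter_upwards with y'
      simp
    refine ⟨?_, ?_, ?_⟩
    · have := h2.eq_of_nhds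
      rw [this, abs_zero]; linarith
    · rw [h3.eq_of_nhds, norm_zero]; linarith
    · rw [h3.fderiv_eq]
      have : fderiv ℝ (fun _ : V n => (0 : V n →L[ℝ] ℝ)) y = 0 := fderiv_const_apply _
      rw [this]
      exact (norm_zero2 (E := V n)).le.trans (by linarith)

lemma lev_q (hPRD : T_PRD) {p h : V n → ℝ} {τ : ℝ → ℝ} (hp : ContDiff ℝ ∞ p)
    (hh : ContDiffOn ℝ ∞ h (Metric.ball (0 : V n) 2)) (hτ : ContDiff ℝ 2 τ) (s : ℝ)
    {y : V n} (hy : y ∈ Metric.ball (0 : V n) 2) (v : V n) :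
    lev (fun y => p y * τ (h y + s)) y v = τ (h y + s) * lev p y v +
      (2 * deriv τ (h y + s) * (dr p y v * conj (dr h y v)).re +
      p y * (deriv τ (h y + s) * lev h y v + deriv (deriv τ) (h y + s) * ge h y v)) := by
  have hn := Metric.isOpen_ball.mem_nhds hy
  have hc : ContDiffAt ℝ ∞ h y := hh.contDiffAt hn
  have hc2 : ContDiffAt ℝ 2 h y := hc.of_le (by norm_cast)
  have hp2 : ContDiffAt ℝ 2 p y := hp.contDiffAt.of_le (by norm_cast)
  obtain ⟨-, -, h3, h4, h5⟩ := hPRD n y v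
  have hθ : ContDiff ℝ 2 (fun r => τ (r + s)) := hτ.comp (contDiff_id.add contDiff_const)
  have e1 : deriv (fun r => τ (r + s)) = fun r => deriv τ (r + s) := by
    funext r; exact deriv_comp_add_const τ s r
  have e2 : deriv (fun r => deriv τ (r + s)) = fun r => deriv (deriv τ) (r + s) := by
    funext r; exact deriv_comp_add_const (deriv τ) s r
  have hτh : ContDiffAt ℝ 2 (fun y => τ (h y + s)) y :=
    hτ.contDiffAt.comp y (hc2.add contDiffAt_const)
  rw [h3 p (fun y => τ (h y + s)) hp2 hτh]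
  have h5' := h5 (fun r => τ (r + s)) h hθ.contDiffAt hc2
  have h4' := h4 (fun r => τ (r + s)) h (hθ.differentiable (by norm_num)).differentiableAt
    (hc.differentiableAt (by simp))
  simp only [e1, e2] at h5' h4'
  rw [h5', h4', map_mul, Complex.conj_ofReal]
  have e3 : (dr p y v * (((deriv τ (h y + s) : ℝ) : ℂ) * conj (dr h y v))).re
      = deriv τ (h y + s) * (dr p y v * conj (dr h y v)).re := by
    rw [← mul_assoc, mul_comm (dr p y v), mul_assoc, Complex.re_ofReal_mul]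
  rw [e3]; ring

/-- the remainder in `lev_q` is bounded by the derivatives of `τ` -/
lemma rem_bound {p h : V n → ℝ} (hp : ContDiff ℝ ∞ p)
    (hps : ∀ y, p y ≠ 0 → y ∈ Metric.closedBall (0 : V n) (3 / 2))
    (hh : ContDiffOn ℝ ∞ h (Metric.ball (0 : V n) 2)) :
    ∃ M : ℝ, 0 ≤ M ∧ (∀ y, |p y| ≤ M) ∧ ∀ y ∈ Metric.ball (0 : V n) 2, ∀ a b : ℝ, ∀ j : Fin n,
      |2 * a * (dr p y (ek j) * conj (dr h y (ek j))).re +
      p y * (a * lev h y (ek j) + b * ge h y (ek j))| ≤ M * (|a| + |b|) ∧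
      (y ∉ Metric.closedBall (0 : V n) (3 / 2) → 2 * a * (dr p y (ek j) * conj (dr h y (ek j))).re +
      p y * (a * lev h y (ek j) + b * ge h y (ek j)) = 0) := by
  have hcb : IsCompact (Metric.closedBall (0 : V n) (3 / 2)) := isCompact_closedBall _ _
  have hsub : Metric.closedBall (0 : V n) (3 / 2) ⊆ Metric.ball (0 : V n) 2 :=
    Metric.closedBall_subset_ball (by norm_num)
  have hh2 : ContDiffOn ℝ 2 h (Metric.ball (0 : V n) 2) := hh.of_le (by norm_cast)
  obtain ⟨P0, hP0⟩ := hcb.exists_bound_of_continuousOn (f := p) hp.continuous.continuousOn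
  obtain ⟨P1, hP1⟩ := hcb.exists_bound_of_continuousOn (f := fderiv ℝ p)
    (hp.continuous_fderiv (by simp)).continuousOn
  obtain ⟨H1, hH1⟩ := hcb.exists_bound_of_continuousOn (f := fderiv ℝ h)
    ((contOn_fderiv1 Metric.isOpen_ball (hh.of_le (by norm_cast))).mono hsub)
  obtain ⟨H2, hH2⟩ := hcb.exists_bound_of_continuousOn (f := fderiv ℝ (fderiv ℝ h))
    ((contOn_fderiv2 Metric.isOpen_ball hh2).mono hsub)
  have hy0 : (0 : V n) ∈ Metric.closedBall (0 : V n) (3 / 2) :=
    Metric.mem_closedBall_self (by norm_num)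
  have p0 : 0 ≤ P0 := (norm_nonneg _).trans (hP0 0 hy0)
  have p1 : 0 ≤ P1 := (norm_nonneg _).trans (hP1 0 hy0)
  have q1 : 0 ≤ H1 := (norm_nonneg _).trans (hH1 0 hy0)
  have q2 : 0 ≤ H2 := (norm_nonneg _).trans (hH2 0 hy0)
  have hek : ∀ j : Fin n, ‖(ek j : V n)‖ ≤ 1 := by
    intro j
    unfold ek
    refine (pi_norm_le_iff_of_nonneg zero_le_one).mpr fun i => ?_
    rw [Pi.single_apply]
    split_ifs <;> simp
  refine ⟨P0 + (2 * (P1 * H1) + P0 * H2 + P0 * H1 ^ 2), by positivity, fun y => ?_,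
    fun y hy a b j => ⟨?_, ?_⟩⟩
  · by_cases hy : y ∈ Metric.closedBall (0 : V n) (3 / 2)
    · have : |p y| ≤ P0 := hP0 y hy
      have : 0 ≤ (2 * (P1 * H1) + P0 * H2 + P0 * H1 ^ 2) := by positivity
      linarith
    · have : p y = 0 := by
        by_contra hne; exact hy (hps y hne)
      rw [this, abs_zero]; positivity
  · by_cases hy1 : y ∈ Metric.closedBall (0 : V n) (3 / 2)
    · have e0 : |p y| ≤ P0 := hP0 y hy1
      have e1 : ‖dr p y (ek j)‖ ≤ P1 := by
        refine (norm_dr_le p y (ek j)).trans ?_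
        calc ‖fderiv ℝ p y‖ * ‖(ek j : V n)‖ ≤ P1 * 1 :=
              mul_le_mul (hP1 y hy1) (hek j) (norm_nonneg _) p1
          _ = P1 := mul_one _
      have e2 : ‖dr h y (ek j)‖ ≤ H1 := by
        refine (norm_dr_le h y (ek j)).trans ?_
        calc ‖fderiv ℝ h y‖ * ‖(ek j : V n)‖ ≤ H1 * 1 :=
              mul_le_mul (hH1 y hy1) (hek j) (norm_nonneg _) q1
          _ = H1 := mul_one _
      have e3 : |lev h y (ek j)| ≤ H2 := by
        refine (abs_lev_le (hh2.contDiffAt (Metric.isOpen_ball.mem_nhds hy)) (ek j)).trans ?_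
        have h5 : ‖fderiv ℝ (fderiv ℝ h) y‖ ≤ H2 := hH2 y hy1
        calc ‖fderiv ℝ (fderiv ℝ h) y‖ * ‖(ek j : V n)‖ ^ 2 ≤ H2 * 1 :=
              mul_le_mul h5 (pow_le_one₀ (norm_nonneg _) (hek j)) (by positivity) q2
          _ = H2 := mul_one _
      have e4 : |ge h y (ek j)| ≤ H1 ^ 2 := by
        unfold ge
        rw [abs_of_nonneg (by positivity)]
        gcongr
      have e5 : |(dr p y (ek j) * conj (dr h y (ek j))).re| ≤ P1 * H1 := by
        refine (Complex.abs_re_le_norm _).trans ?_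
        rw [norm_mul, Complex.norm_conj]
        exact mul_le_mul e1 e2 (norm_nonneg _) p1
      have a0 := abs_nonneg a
      have b0 := abs_nonneg b
      calc |2 * a * (dr p y (ek j) * conj (dr h y (ek j))).re +
            p y * (a * lev h y (ek j) + b * ge h y (ek j))|
          ≤ 2 * |a| * (P1 * H1) + P0 * (|a| * H2 + |b| * H1 ^ 2) := by
            refine (abs_add_le _ _).trans (add_le_add ?_ ?_)
            · rw [abs_mul, abs_mul, abs_of_nonneg (by norm_num : (0:ℝ) ≤ 2)]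
              gcongr
            · rw [abs_mul]
              refine mul_le_mul e0 ?_ (abs_nonneg _) p0
              refine (abs_add_le _ _).trans (add_le_add ?_ ?_)
              · rw [abs_mul]; gcongr
              · rw [abs_mul]; gcongr
        _ ≤ (P0 + (2 * (P1 * H1) + P0 * H2 + P0 * H1 ^ 2)) * (|a| + |b|) := by
            have m1 : 0 ≤ P1 * H1 := by positivity
            have m2 : 0 ≤ P0 * H2 := by positivity
            have m3 : 0 ≤ P0 * H1 ^ 2 := by positivity
            nlinarith [mul_nonneg m1 b0, mul_nonneg m2 b0, mul_nonneg m3 a0, mul_nonneg p0 a0,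
              mul_nonneg p0 b0]
    · have hz := ev_zero hps hy1
      have h1 : p y = 0 := hz.self_of_nhds
      have h2 : fderiv ℝ p y = 0 := by
        have : p =ᶠ[𝓝 y] fun _ => 0 := hz
        rw [this.fderiv_eq]; simp
      have h3 : dr p y (ek j) = 0 := by unfold dr; rw [h2]; simp
      rw [h1, h3]; simp; positivity
  · intro hy1
    have hz := ev_zero hps hy1
    have h1 : p y = 0 := hz.self_of_nhds
    have h2 : fderiv ℝ p y = 0 := by
      have : p =ᶠ[𝓝 y] fun _ => 0 := hz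
      rw [this.fderiv_eq]; simp
    have h3 : dr p y (ek j) = 0 := by unfold dr; rw [h2]; simp
    rw [h1, h3]; simp

lemma norm_ek_le (j : Fin n) : ‖(ek j : V n)‖ ≤ 1 := by
  unfold ek
  refine (pi_norm_le_iff_of_nonneg zero_le_one).mpr fun i => ?_
  rw [Pi.single_apply]
  split_ifs <;> simp

lemma lev_zero {p : V n → ℝ} (hps : ∀ y, p y ≠ 0 → y ∈ Metric.closedBall (0 : V n) (3 / 2))
    {y : V n} (hy : y ∉ Metric.closedBall (0 : V n) (3 / 2)) (v : V n) : lev p y v = 0 := by
  have h1 : p =ᶠ[𝓝 y] fun _ => 0 := ev_zero hps hy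
  have h2 : fderiv ℝ p =ᶠ[𝓝 y] fun _ => 0 := by
    refine h1.fderiv.trans ?_
    filter_upwards with y'
    simp
  have h3 : ∀ u : V n, fderiv ℝ (fun x => fderiv ℝ p x u) y = 0 := by
    intro u
    have : (fun x => fderiv ℝ p x u) =ᶠ[𝓝 y] fun _ => 0 := by
      filter_upwards [h2] with x hx
      rw [hx]; simp
    rw [this.fderiv_eq]; simp
  unfold lev
  rw [h3, h3]; simp

lemma lev_bound {p : V n → ℝ} (hp : ContDiff ℝ 2 p)
    (hps : ∀ y, p y ≠ 0 → y ∈ Metric.closedBall (0 : V n) (3 / 2)) :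
    ∃ L : ℝ, 0 ≤ L ∧ ∀ y (j : Fin n), |lev p y (ek j)| ≤ L := by
  have hcb : IsCompact (Metric.closedBall (0 : V n) (3 / 2)) := isCompact_closedBall _ _
  obtain ⟨P2, hP2⟩ := hcb.exists_bound_of_continuousOn (f := fderiv ℝ (fderiv ℝ p))
    ((contOn_fderiv2 isOpen_univ hp.contDiffOn).mono (subset_univ _))
  have hy0 : (0 : V n) ∈ Metric.closedBall (0 : V n) (3 / 2) :=
    Metric.mem_closedBall_self (by norm_num)
  have p2 : 0 ≤ P2 := (norm_nonneg _).trans (hP2 0 hy0)
  refine ⟨P2, p2, fun y j => ?_⟩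
  by_cases hy : y ∈ Metric.closedBall (0 : V n) (3 / 2)
  · refine (abs_lev_le hp.contDiffAt (ek j)).trans ?_
    calc ‖fderiv ℝ (fderiv ℝ p) y‖ * ‖(ek j : V n)‖ ^ 2 ≤ P2 * 1 :=
          mul_le_mul (hP2 y hy) (pow_le_one₀ (norm_nonneg _) (norm_ek_le j)) (by positivity) p2
      _ = P2 := mul_one _
  · rw [lev_zero hps hy, abs_zero]; exact p2

lemma bound_of_supp {g : V n → ℝ} (hg : Continuous g)
    (hgs : ∀ y, g y ≠ 0 → y ∈ Metric.closedBall (0 : V n) (3 / 2)) :
    ∃ L : ℝ, 0 ≤ L ∧ ∀ y, |g y| ≤ L := by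
  have hcb : IsCompact (Metric.closedBall (0 : V n) (3 / 2)) := isCompact_closedBall _ _
  obtain ⟨P, hP⟩ := hcb.exists_bound_of_continuousOn (f := g) hg.continuousOn
  have hy0 : (0 : V n) ∈ Metric.closedBall (0 : V n) (3 / 2) :=
    Metric.mem_closedBall_self (by norm_num)
  have p2 : 0 ≤ P := (norm_nonneg _).trans (hP 0 hy0)
  refine ⟨P, p2, fun y => ?_⟩
  by_cases hy : y ∈ Metric.closedBall (0 : V n) (3 / 2)
  · exact hP y hy
  · have : g y = 0 := by
      by_contra hne; exact hy (hgs y hne)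
    rw [this, abs_zero]; exact p2

variable {X : Type} [TopologicalSpace X] {ι : Type}

/-- integrability of `ψ * PB` for bounded continuous `ψ` with compact support in `Dp` -/
lemma int_PB [T2Space X] [Fintype ι] (hSMO : T_SMO) (hOAO : T_OAO) (hDOM : T_DOM) {A : Atl n X ι}
    {w : ι → V n → ℝ} {f : V n → X} {I : Set (V n)} (hwc : ∀ a, Continuous (w a))
    (hws : ∀ a y, w a y ≠ 0 → y ∈ Metric.closedBall (0 : V n) (3 / 2)) (hS : Sing A f I)
    {K : Set (V n)} (hK : K ⊆ Dp n) (hKc : IsCompact K) {ψ : V n → ℝ}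
    (hψc : ContinuousOn ψ (Dp n \ I)) {C : ℝ} (hC : ∀ z ∈ Dp n \ I, |ψ z| ≤ C)
    (hz : ∀ z ∈ Dp n \ I, z ∉ K → ψ z = 0) :
    IntegrableOn (fun z => ψ z * PB A f w z) (Dp n \ I) := by
  have he : (fun z => ψ z * PB A f w z) = fun z => ∑ b, ψ z * (Wt A w b (f z) *
      ‖(jac (FF A f b) z).det‖ ^ 2) := by
    funext z; unfold PB; rw [Finset.mul_sum]
  rw [he]
  refine integrable_finsetSum _ fun b _ => ?_
  obtain ⟨hOo, hFd, -, -, hO2, -⟩ := hOAO n X ι A f I hS b
  refine (int_oa (A := A) (f := f) (I := I) (a := b) hS.opn ?_).2 ?_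
  · intro z hzD hzO
    rw [wt_of_notMem (hws b) hzD hzO]; ring
  · obtain ⟨L, hL0, hL⟩ := bound_of_supp (hwc b) (hws b)
    have hcont : ContinuousOn (fun z => ψ z * (w b (FF A f b z) *
        ‖(jac (FF A f b) z).det‖ ^ 2)) (Oa A f I b) :=
      (hψc.mono oa_subset).mul (((hwc b).comp_continuousOn hFd.continuousOn).mul
        ((contOn_det hSMO hOo hFd).norm.pow 2))
    have h1 : IntegrableOn (fun z => ψ z * (w b (FF A f b z) *
        ‖(jac (FF A f b) z).det‖ ^ 2)) (Oa A f I b) := by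
      refine intOa hS hOo hO2 hK hKc hcont (C := |C| * L) ?_ ?_
      · intro z hz'
        have hd := (hDOM n (FF A f b) z ((hFd z hz').differentiableAt (hOo.mem_nhds hz')))
        rw [Real.norm_eq_abs, abs_mul, abs_mul, abs_of_nonneg (by positivity :
          0 ≤ ‖(jac (FF A f b) z).det‖ ^ 2), mul_assoc]
        have h3 : |ψ z| ≤ |C| := (hC z hz'.1).trans (le_abs_self C)
        have h4 := hL (FF A f b z)
        have h5 := hd.2.1
        gcongr
      · intro z hz' hzK
        rw [hz z hz'.1 hzK, zero_mul]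
    refine h1.congr_fun (fun z hz' => ?_) hOo.measurableSet
    simp only
    rw [wt_of_mem hz']

lemma wt_sgl_ne {A : Atl n X ι} {a b : ι} (hab : b ≠ a) (P : V n → ℝ) (x : X) :
    Wt A (sgl a P) b x = 0 := by
  unfold Wt sgl
  simp [hab]

/-- VG module NHA -/
theorem nha (hSMO : T_SMO) (hPRD : T_PRD) (hOAO : T_OAO) (hDOM : T_DOM) (hCUT : T_CUT)
    (hSYM : T_SYM) (hCMP : T_CMP) (hCST : T_CST) : T_NHA := by
  intro n X _ _ _ ι _ A w f I h η hG hS hC hE a p hp hps
  obtain ⟨hOo, hFd, -, hCb, hO2, -⟩ := hOAO n X ι A f I hS a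
  obtain ⟨M, hM0, hMp, hMr⟩ := rem_bound hp hps (hC.smooth a)
  obtain ⟨C1, hC1, -⟩ := hCST n X ι A w f I hG hS
  obtain ⟨C2, hC2p, hC2⟩ := hCMP n X ι A w hG
  have hC2' := hC2 f I hS
  have hp2 : ContDiff ℝ 2 p := hp.of_le (by norm_cast)
  obtain ⟨Lp, hLp0, hLp⟩ := lev_bound hp2 hps
  refine ⟨(n:ℝ) * (M * |C1|) + n * (M * C2), by positivity, ?_⟩
  intro τ B t ht hτ hB hB'
  obtain ⟨B', hB'⟩ := hB'
  have hB0 : 0 ≤ B := (abs_nonneg _).trans (hB 0)
  have hB0' : 0 ≤ B' := (abs_nonneg _).trans (hB' 0).1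
  obtain ⟨hchi, -, hchi01, hrho, -⟩ := hCUT n
  obtain ⟨hrhos, hrho01, hφc, hφs⟩ := hrho t ht
  have hφ : ContDiff ℝ 2 (fun z : V n => chi z * rho t z) :=
    (hchi.mul hrhos).of_le (by norm_cast)
  have hφ0 : ∀ z : V n, 0 ≤ chi z * rho t z := fun z =>
    mul_nonneg (hchi01 z).1 (hrho01 z).1
  have hφ1 : ∀ z : V n, chi z * rho t z ≤ 1 := fun z =>
    mul_le_one₀ (hchi01 z).2.1 (hrho01 z).1 (hrho01 z).2.1
  set φ : V n → ℝ := fun z => chi z * rho t z with hφdef
  set F := FF A f a with hFdef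
  set O := Oa A f I a with hOdef
  set K := tsupport φ with hKdef
  have hKc : IsCompact K := hφc
  have hφK : ∀ z, z ∉ K → φ z = 0 := fun z hz => image_eq_zero_of_notMem_tsupport hz
  have hFball : ∀ z ∈ O, F z ∈ Metric.ball (0 : V n) 2 := fun z hz => hz.2.2
  have hFc : ContinuousOn F O := hFd.continuousOn
  have hηD : ContinuousOn η (Dp n \ I) := hE.cont
  have hηc : ContinuousOn η O := hηD.mono oa_subset
  have hτc : Continuous τ := hτ.continuous
  have hτ' : ContDiff ℝ 1 (deriv τ) := by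
    have : ContDiff ℝ (1 + 1) τ := by simpa [one_add_one_eq_two] using hτ
    exact (contDiff_succ_iff_deriv.mp this).2.2
  have hτ'c : Continuous (deriv τ) := hτ'.continuous
  have hτ''c : Continuous (deriv (deriv τ)) := hτ'.continuous_deriv (by norm_num)
  have hdc : ContinuousOn (fun z => ‖(jac F z).det‖ ^ 2) O := ((contOn_det hSMO hOo hFd).norm).pow 2
  have hDm : ∀ z ∈ O, ‖(jac F z).det‖ ^ 2 ≤ Dm F z := fun z hz =>
    (hDOM n F z ((hFd z hz).differentiableAt (hOo.mem_nhds hz))).2.1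
  -- the data for SYM
  have hσ : ∀ z ∈ O, ∀ᶠ z' in 𝓝 z, η z' - h a (F z') = η z - h a (F z) := hE.loc a
  obtain ⟨Cq, hCq⟩ := q_bounds hp hps (hC.smooth a) hτ hB hB'
  have hsym := fun k => hSYM n X ι A f I hS a k φ (fun y s => p y * τ (h a y + s))
    (fun z => η z - h a (F z)) (3 / 2) (by norm_num) hφ hφc hφs hσ
    (fun s => q_smooth hp hps (hC.smooth a) hτ s)
    (fun y s hne => hps y (left_ne_zero_of_mul hne)) ⟨Cq, hCq⟩
  have hqF : ∀ z, p (F z) * τ (h a (F z) + (η z - h a (F z))) = p (F z) * τ (η z) := by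
    intro z; congr 2; ring
  -- the three integrands
  set Mn : Fin n → V n → ℝ := fun k z => φ z * τ (η z) * (lev p (F z) (ek k) *
    ‖(jac F z).det‖ ^ 2) with hMn
  set Ln : Fin n → V n → ℝ := fun k z => φ z * ‖(jac F z).det‖ ^ 2 *
    lev (fun y => p y * τ (h a y + (η z - h a (F z)))) (F z) (ek k) with hLn
  have hLint : ∀ k, IntegrableOn (Ln k) O := fun k => (hsym k).2.1
  have hMint : ∀ k, IntegrableOn (Mn k) O := by
    intro k
    have hc : ContinuousOn (Mn k) O := by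
      have h1 : ContinuousOn (fun z => lev p (F z) (ek k)) O :=
        contOn_lev isOpen_univ hp2.contDiffOn hFc continuousOn_const (fun _ _ => mem_univ _)
      exact ((hφ.continuous.continuousOn).mul (hτc.comp_continuousOn hηc)).mul (h1.mul hdc)
    refine intOa hS hOo hO2 hφs hKc hc (C := B * Lp) ?_ ?_
    · intro z hz
      rw [Real.norm_eq_abs]
      simp only [hMn]
      rw [abs_mul, abs_mul, abs_of_nonneg (hφ0 z), abs_mul (lev p (F z) (ek k)),
        abs_of_nonneg (by positivity : 0 ≤ ‖(jac F z).det‖ ^ 2)]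
      calc φ z * |τ (η z)| * (|lev p (F z) (ek k)| * ‖(jac F z).det‖ ^ 2)
          ≤ 1 * B * (Lp * Dm F z) := by
            have h1 := hφ1 z
            have h0 := hφ0 z
            have h2 := hB (η z)
            have h3 := hLp (F z) k
            have h4 := hDm z hz
            gcongr
        _ = B * Lp * Dm F z := by ring
    · intro z hz hzK
      simp only [hMn]
      rw [hφK z hzK]; ring
  set H : V n → ℝ := fun z => φ z * (|deriv τ (η z)| + |deriv (deriv τ) (η z)|) * PB A f w z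
    with hH
  have hHint : IntegrableOn H (Dp n \ I) := by
    refine int_PB hSMO hOAO hDOM (fun b => (hG.smooth b).continuous) hG.supp hS hφs hKc
      (ψ := fun z => φ z * (|deriv τ (η z)| + |deriv (deriv τ) (η z)|)) ?_ (C := 2 * B') ?_ ?_
    · exact hφ.continuous.continuousOn.mul ((hτ'c.comp_continuousOn hηD).abs.add
        (hτ''c.comp_continuousOn hηD).abs)
    · intro z _
      rw [abs_mul, abs_of_nonneg (hφ0 z), abs_of_nonneg (by positivity)]
      have h1 := hφ1 z
      have h0 := hφ0 z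
      have h2 := (hB' (η z)).1
      have h3 := (hB' (η z)).2
      calc φ z * (|deriv τ (η z)| + |deriv (deriv τ) (η z)|)
          ≤ 1 * (B' + B') := by gcongr
        _ = 2 * B' := by ring
    · intro z _ hzK
      show φ z * _ = 0
      rw [hφK z hzK, zero_mul]
  have hPB0 : ∀ z, 0 ≤ PB A f w z := by
    intro z
    unfold PB Wt
    refine Finset.sum_nonneg fun b _ => mul_nonneg ?_ (by positivity)
    exact indicator_nonneg (fun x _ => hG.nonneg b _) _
  have hH0 : ∀ z, 0 ≤ H z := fun z => by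
    have := hφ0 z
    have := hPB0 z
    simp only [hH]; positivity
  -- main integral
  have hmain : ∫ z in Dp n \ I, chi z * rho t z * τ (η z) *
        PB A f (sgl a (fun y => ∑ k, lev p y (ek k))) z = ∑ k, ∫ z in O, Mn k z := by
    have hPe : ∀ z, PB A f (sgl a (fun y => ∑ k, lev p y (ek k))) z
        = Wt A (sgl a (fun y => ∑ k, lev p y (ek k))) a (f z) * ‖(jac F z).det‖ ^ 2 := by
      intro z
      unfold PB
      rw [Finset.sum_eq_single a]
      · intro b _ hb
        rw [wt_sgl_ne hb, zero_mul]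
      · intro h; exact absurd (Finset.mem_univ a) h
    have hsup : ∀ y, sgl a (fun y => ∑ k, lev p y (ek k)) a y ≠ 0 →
        y ∈ Metric.closedBall (0 : V n) (3 / 2) := by
      intro y hne
      by_contra hy
      apply hne
      unfold sgl
      simp only [if_true]
      exact Finset.sum_eq_zero fun k _ => lev_zero hps hy _
    rw [(int_oa (A := A) (f := f) (I := I) (a := a) hS.opn ?_).1]
    · rw [← integral_finsetSum _ (fun k _ => hMint k)]
      refine setIntegral_congr_fun hOo.measurableSet fun z hz => ?_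
      simp only [hPe, hMn]
      rw [wt_of_mem hz]
      have : sgl a (fun y => ∑ k, lev p y (ek k)) a (FF A f a z) = ∑ k, lev p (F z) (ek k) := by
        unfold sgl; simp [hFdef]
      rw [this, Finset.sum_mul, Finset.mul_sum]
    · intro z hzD hzO
      rw [hPe, wt_of_notMem hsup hzD hzO]; ring
  -- remainder
  have hrem : ∀ k, ∀ z ∈ O, |Ln k z - Mn k z| ≤ M * C2 * H z := by
    intro k z hz
    have hy := hFball z hz
    have e1 := lev_q hPRD hp (hC.smooth a) hτ (η z - h a (F z)) hy (ek k)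
    have e2 : h a (F z) + (η z - h a (F z)) = η z := by ring
    rw [e2] at e1
    obtain ⟨e3, e4⟩ := hMr (F z) hy (deriv τ (η z)) (deriv (deriv τ) (η z)) k
    set R := 2 * deriv τ (η z) * (dr p (F z) (ek k) * conj (dr (h a) (F z) (ek k))).re +
      p (F z) * (deriv τ (η z) * lev (h a) (F z) (ek k) +
        deriv (deriv τ) (η z) * ge (h a) (F z) (ek k)) with hR
    have e5 : Ln k z - Mn k z = φ z * ‖(jac F z).det‖ ^ 2 * R := by
      simp only [hLn, hMn]
      rw [e1]; ring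
    rw [e5, abs_mul, abs_mul, abs_of_nonneg (hφ0 z),
      abs_of_nonneg (by positivity : 0 ≤ ‖(jac F z).det‖ ^ 2)]
    have e6 : ‖(jac F z).det‖ ^ 2 ≤ C2 * PB A f w z := (hC2' z hz.1 a (hO2 hz).2).1
    have h0 := hφ0 z
    calc φ z * ‖(jac F z).det‖ ^ 2 * |R|
        ≤ φ z * (C2 * PB A f w z) * (M * (|deriv τ (η z)| + |deriv (deriv τ) (η z)|)) := by
          gcongr
          exact mul_nonneg h0 (le_trans (by positivity) e6)
      _ = M * C2 * H z := by simp only [hH]; ring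
  have hkey : ∀ k, |∫ z in O, Mn k z| ≤ M * |C1| * B + M * C2 * ∫ z in Dp n \ I, H z := by
    intro k
    have h1 : ∫ z in O, Mn k z = (∫ z in O, Ln k z) - ∫ z in O, (Ln k z - Mn k z) := by
      rw [integral_sub (hLint k) (hMint k)]; ring
    have h2 : |∫ z in O, (Ln k z - Mn k z)| ≤ M * C2 * ∫ z in Dp n \ I, H z := by
      calc |∫ z in O, (Ln k z - Mn k z)| ≤ ∫ z in O, M * C2 * H z := by
            rw [← Real.norm_eq_abs]
            refine norm_integral_le_of_norm_le ((hHint.mono_set oa_subset).const_mul _) ?_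
            refine (ae_restrict_iff' hOo.measurableSet).mpr (Eventually.of_forall fun z hz => ?_)
            exact hrem k z hz
        _ = M * C2 * ∫ z in O, H z := by rw [integral_const_mul]
        _ ≤ M * C2 * ∫ z in Dp n \ I, H z := by
            refine mul_le_mul_of_nonneg_left ?_ (by positivity)
            exact setIntegral_mono_set hHint (Eventually.of_forall fun z => hH0 z)
              (LE.le.eventuallyLE oa_subset)
    have h3 : |∫ z in O, Ln k z| ≤ M * |C1| * B := by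
      have h4 := (hsym k).2.2
      have h5 : ∫ z in O, Ln k z = ∫ z in O, p (F z) * τ (η z) * lev φ z (cf F k z) := by
        rw [← h4]
        refine setIntegral_congr_fun hOo.measurableSet fun z _ => ?_
        show p (F z) * τ (h a (F z) + (η z - h a (F z))) * _ = _
        rw [hqF z]
      rw [h5, ← Real.norm_eq_abs]
      refine (norm_integral_le_lintegral_norm _).trans ?_
      have h6 : ∫⁻ z in O, ENNReal.ofReal ‖p (F z) * τ (η z) * lev φ z (cf F k z)‖
          ≤ ENNReal.ofReal (M * |C1| * B) := by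
        calc ∫⁻ z in O, ENNReal.ofReal ‖p (F z) * τ (η z) * lev φ z (cf F k z)‖
            ≤ ∫⁻ z in O, ENNReal.ofReal (M * B) * ENNReal.ofReal |lev φ z (cf F k z)| := by
              refine lintegral_mono fun z => ?_
              simp only
              rw [← ENNReal.ofReal_mul (by positivity)]
              refine ENNReal.ofReal_le_ofReal ?_
              rw [Real.norm_eq_abs, abs_mul, abs_mul]
              have := hMp (F z)
              have := hB (η z)
              gcongr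
          _ = ENNReal.ofReal (M * B) * ∫⁻ z in O, ENNReal.ofReal |lev φ z (cf F k z)| := by
              rw [lintegral_const_mul' _ _ ENNReal.ofReal_ne_top]
          _ ≤ ENNReal.ofReal (M * B) * ENNReal.ofReal |C1| := by
              gcongr
              refine (lintegral_mono_set hO2).trans ?_
              exact ((hC1 t ht a k).1).trans (ENNReal.ofReal_le_ofReal (le_abs_self _))
          _ = ENNReal.ofReal (M * |C1| * B) := by
              rw [← ENNReal.ofReal_mul (by positivity)]; congr 1; ring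
      exact ENNReal.toReal_le_of_le_ofReal (by positivity) h6
    rw [h1]
    refine (abs_sub _ _).trans ?_
    exact add_le_add h3 h2
  rw [hmain]
  refine (Finset.abs_sum_le_sum_abs _ _).trans ?_
  refine (Finset.sum_le_sum fun k _ => hkey k).trans ?_
  rw [Finset.sum_const, Finset.card_univ, Fintype.card_fin, nsmul_eq_mul]
  have hI0 : 0 ≤ ∫ z in Dp n \ I, H z := integral_nonneg hH0
  have g1 : 0 ≤ (n:ℝ) * (M * |C1|) := by positivity
  have g2 : 0 ≤ (n:ℝ) * (M * C2) := by positivity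
  have g3 := mul_nonneg g2 hB0
  have g4 := mul_nonneg g1 hI0
  have e : ∫ z in Dp n \ I, chi z * rho t z *
        (|deriv τ (η z)| + |deriv (deriv τ) (η z)|) * PB A f w z = ∫ z in Dp n \ I, H z := rfl
  rw [e]
  nlinarith

end Pool.Agent.H42.VG
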